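import Mathlib
import Pool.Agent.TH841.SH.Pw

/-!
# Counting in divisible groups
-/

set_option autoImplicit false

namespace Pool.Agent.TH841.NF

open Finset

open Pool.Agent.TH841.SH (Pruf card_tor)

/-- the elements `k / 2 ^ m` -/
lemma pruf_eq {n l : ℕ} {k k' : ℕ} (hk : k < 2 ^ l) (hk' : k' < 2 ^ l)
    (h : (2 ^ n : ℕ) • (QuotientAddGroup.mk ((k : ℚ_[2]) / 2 ^ (n + l)) -
      QuotientAddGroup.mk ((k' : ℚ_[2]) / 2 ^ (n + l)) : Pruf) = 0) : k = k' := by
  have e1 : (2 ^ n : ℕ) • (QuotientAddGroup.mk ((k : ℚ_[2]) / 2 ^ (n + l)) -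
      QuotientAddGroup.mk ((k' : ℚ_[2]) / 2 ^ (n + l)) : Pruf) =
      QuotientAddGroup.mk ((((k : ℤ) - (k' : ℤ) : ℤ) : ℚ_[2]) / 2 ^ l) := by
    rw [← QuotientAddGroup.mk_sub, ← QuotientAddGroup.mk_nsmul]
    congr 1
    rw [nsmul_eq_mul]
    push_cast
    have h2 : (2 : ℚ_[2]) ^ n ≠ 0 := pow_ne_zero _ two_ne_zero
    have h3 : (2 : ℚ_[2]) ^ l ≠ 0 := pow_ne_zero _ two_ne_zero
    rw [pow_add]
    field_simp
  rw [e1, QuotientAddGroup.eq_zero_iff] at h
  have h1 : ‖(((k : ℤ) - (k' : ℤ) : ℤ) : ℚ_[2]) / 2 ^ l‖ ≤ 1 := h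
  have h2 : ‖(2 : ℚ_[2])‖ = 2⁻¹ := by
    have := Padic.norm_p (p := 2)
    exact_mod_cast this
  rw [norm_div, norm_pow, h2, div_le_one (by positivity)] at h1
  have h3 : ‖(((k : ℤ) - (k' : ℤ) : ℤ) : ℚ_[2])‖ ≤ ((2 : ℕ) : ℝ) ^ (-(l : ℤ)) := by
    refine h1.trans (le_of_eq ?_)
    rw [zpow_neg, zpow_natCast, inv_pow]
    norm_num
  rw [Padic.norm_int_le_pow_iff_dvd] at h3
  have h4 : ((k : ℤ) - k') = 0 := by
    apply Int.eq_zero_of_abs_lt_dvd h3
    rw [abs_lt]
    have h5 : (k : ℤ) < 2 ^ l := by exact_mod_cast hk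
    have h6 : (k' : ℤ) < 2 ^ l := by exact_mod_cast hk'
    push_cast
    constructor <;> omega
  omega

/-- a divisible subgroup, maps with a kernel of bounded exponent -/
lemma div_bound {S : Type} [AddCommGroup S] {ι : Type} [Fintype ι] {P : ι → Type}
    [∀ i, AddCommGroup (P i)] (θ : ∀ i, S →+ P i) (n : ℕ)
    (hker : ∀ x, (∀ i, θ i x = 0) → (2 ^ n : ℕ) • x = 0)
    (hfin : ∀ i, Finite {x : P i // x + x = 0}) (q : ℕ) (g : (Fin q → Pruf) →+ S)
    (hg : Function.Injective g) : 2 ^ q ≤ ∏ i, Nat.card {x : P i // x + x = 0} := by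
  classical
  set A := ∏ i, Nat.card {x : P i // x + x = 0} with hA
  have key : ∀ l : ℕ, (2 ^ q) ^ l ≤ A ^ (n + l) := by
    intro l
    let v : (Fin q → Fin (2 ^ l)) → Fin q → Pruf := fun k i =>
      QuotientAddGroup.mk (((k i : ℕ) : ℚ_[2]) / 2 ^ (n + l))
    have hv : ∀ k, (2 ^ (n + l) : ℕ) • v k = 0 := by
      intro k
      funext i
      change (2 ^ (n + l) : ℕ) • (QuotientAddGroup.mk (((k i : ℕ) : ℚ_[2]) / 2 ^ (n + l)) : Pruf)
        = 0
      rw [← QuotientAddGroup.mk_nsmul, QuotientAddGroup.eq_zero_iff]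
      have : (2 ^ (n + l) : ℕ) • (((k i : ℕ) : ℚ_[2]) / 2 ^ (n + l)) = ((k i : ℕ) : ℚ_[2]) := by
        rw [nsmul_eq_mul]
        push_cast
        field_simp
      rw [this]
      change ‖((k i : ℕ) : ℚ_[2])‖ ≤ 1
      exact_mod_cast Padic.norm_int_le_one (p := 2) ((k i : ℕ) : ℤ)
    have hfin2 : ∀ i, Finite {x : P i // 2 ^ (n + l) • x = 0} := fun i =>
      (card_tor (hfin i) (n + l)).1
    let Φ : (Fin q → Fin (2 ^ l)) → ∀ i, {x : P i // 2 ^ (n + l) • x = 0} := fun k i =>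
      ⟨θ i (g (v k)), by rw [← map_nsmul, ← map_nsmul, hv, map_zero, map_zero]⟩
    have hΦ : Function.Injective Φ := by
      intro k k' hkk
      have h1 : ∀ i, θ i (g (v k - v k')) = 0 := by
        intro i
        have h2 : θ i (g (v k)) = θ i (g (v k')) := congrArg Subtype.val (congrFun hkk i)
        rw [map_sub, map_sub, h2, sub_self]
      have h2 := hker _ h1
      rw [← map_nsmul] at h2
      have h3 : (2 ^ n : ℕ) • (v k - v k') = 0 := hg (by rw [h2, map_zero])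
      funext i
      apply Fin.ext
      exact pruf_eq (k i).2 (k' i).2 (congrFun h3 i)
    have h1 := Nat.card_le_card_of_injective Φ hΦ
    have h2 : Nat.card (Fin q → Fin (2 ^ l)) = (2 ^ q) ^ l := by
      rw [Nat.card_eq_fintype_card, Fintype.card_fun, Fintype.card_fin, Fintype.card_fin,
        ← pow_mul, ← pow_mul, mul_comm]
    rw [h2, Nat.card_pi] at h1
    refine h1.trans ?_
    rw [hA, ← prod_pow]
    exact prod_le_prod' fun i _ => (card_tor (hfin i) (n + l)).2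
  by_contra hlt
  rw [not_le] at hlt
  have hA1 : 1 ≤ A := by
    refine Finset.one_le_prod' fun i _ => ?_
    have := hfin i
    have : Nonempty {x : P i // x + x = 0} := ⟨⟨0, add_zero 0⟩⟩
    exact Nat.card_pos
  have hA0 : (0 : ℝ) < A := by exact_mod_cast hA1
  have hgt : (1 : ℝ) < (2 ^ q : ℝ) / A := by
    rw [one_lt_div hA0]
    exact_mod_cast hlt
  obtain ⟨l, hl⟩ := pow_unbounded_of_one_lt ((A : ℝ) ^ n) hgt
  rw [div_pow, lt_div_iff₀ (by positivity), ← pow_add] at hl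
  have h1 : ((2 ^ q : ℝ)) ^ l ≤ (A : ℝ) ^ (n + l) := by exact_mod_cast key l
  linarith

/-- one step -/
lemma rank_step {M N : Type} [AddCommGroup M] [AddCommGroup N] (L : M →ₗ[ℤ] N)
    (K K' : Submodule ℤ M) (h : ∀ x ∈ K, L x = 0 → x ∈ K') :
    Module.rank ℤ K ≤ Module.rank ℤ N + Module.rank ℤ K' := by
  rw [← LinearMap.rank_range_add_rank_ker (L.domRestrict K)]
  refine add_le_add (Submodule.rank_le _) ?_
  have hinj : ∀ x : LinearMap.ker (L.domRestrict K), ((x : K) : M) ∈ K' := by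
    intro x
    refine h _ (x : K).2 ?_
    have := x.2
    rw [LinearMap.mem_ker, LinearMap.domRestrict_apply] at this
    exact this
  apply LinearMap.rank_le_of_injective (LinearMap.codRestrict K'
    (K.subtype.comp (LinearMap.ker (L.domRestrict K)).subtype) hinj)
  intro x y hxy
  have h1 : ((x : K) : M) = ((y : K) : M) := congrArg (fun z : K' => (z : M)) hxy
  exact Subtype.ext (Subtype.ext h1)

/-- the rank of a module with maps with a torsion kernel -/
lemma rank_le_sum {M : Type} [AddCommGroup M] {ι : Type} (N : ι → Type)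
    [∀ i, AddCommGroup (N i)] (L : ∀ i, M →ₗ[ℤ] N i) (s : Finset ι) :
    ∃ K : Submodule ℤ M, (∀ x ∈ K, ∀ i ∈ s, L i x = 0) ∧
    Module.rank ℤ M ≤ ∑ i ∈ s, Module.rank ℤ (N i) + Module.rank ℤ K := by
  classical
  induction s using Finset.induction_on with
  | empty =>
    refine ⟨⊤, fun x _ i hi => absurd hi (notMem_empty i), ?_⟩
    rw [rank_top, sum_empty, zero_add]
  | insert a s ha ih =>
    obtain ⟨K, hK, h⟩ := ih
    refine ⟨K ⊓ LinearMap.ker (L a), ?_, ?_⟩
    · intro x hx i hi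
      rw [Submodule.mem_inf, LinearMap.mem_ker] at hx
      rcases mem_insert.1 hi with rfl | hi
      · exact hx.2
      · exact hK x hx.1 i hi
    · refine h.trans ?_
      rw [sum_insert ha, add_comm (Module.rank ℤ (N a)), add_assoc]
      refine add_le_add le_rfl (rank_step (L a) K _ fun x hx hx2 => ?_)
      rw [Submodule.mem_inf, LinearMap.mem_ker]
      exact ⟨hx, hx2⟩

lemma finrank_le_sum {M : Type} [AddCommGroup M] {ι : Type} [Fintype ι] (N : ι → Type)
    [∀ i, AddCommGroup (N i)] (t : ∀ i, M →+ N i) (n : ℕ) (hn : n ≠ 0)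
    (hker : ∀ x, (∀ i, t i x = 0) → n • x = 0) (hfin : ∀ i, Module.Finite ℤ (N i)) :
    Module.finrank ℤ M ≤ ∑ i, Module.finrank ℤ (N i) := by
  obtain ⟨K, hK, h1⟩ := rank_le_sum N (fun i => (t i).toIntLinearMap) univ
  have h2 : Module.rank ℤ K = 0 := by
    rw [rank_eq_zero_iff]
    rintro ⟨x, hx⟩
    refine ⟨n, by exact_mod_cast hn, ?_⟩
    apply Subtype.ext
    have h3 : ∀ i, t i x = 0 := fun i => hK x hx i (mem_univ i)
    have h5 := hker x h3
    change (n : ℤ) • x = 0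
    rw [natCast_zsmul, h5]
  rw [h2, add_zero] at h1
  have h3 : ∀ i, Module.rank ℤ (N i) = ((Module.finrank ℤ (N i) : ℕ) : Cardinal) := fun i => by
    have := hfin i
    exact (Module.finrank_eq_rank ℤ _).symm
  rw [sum_congr rfl fun i _ => h3 i, ← Nat.cast_sum] at h1
  exact Module.finrank_le_of_rank_le h1

end Pool.Agent.TH841.NF
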