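import Mathlib

/-!
# Embeddings of a number field into an algebraic closure of `ℚ_p` and finite places
-/

set_option autoImplicit false

namespace Pool.Agent.TH841.NF

open IsDedekindDomain NumberField

section padic

variable {F : Type} [Field F] [NumberField F] {p : ℕ} [hp : Fact p.Prime]
  (j : F →+* PadicAlgCl p)

omit [NumberField F] in
lemma norm_int (x : 𝓞 F) : ‖j (algebraMap (𝓞 F) F x)‖ ≤ 1 := by
  let v : Valuation (PadicAlgCl p) NNReal := Valued.v
  have h1 : IsIntegral ℤ (j (algebraMap (𝓞 F) F x)) := by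
    have h2 : IsIntegral ℤ x := RingOfIntegers.isIntegral x
    exact h2.map (((j.comp (algebraMap (𝓞 F) F)).toIntAlgHom))
  have h2 : IsIntegral v.integer (j (algebraMap (𝓞 F) F x)) := h1.tower_top
  have h3 := (Valuation.integer.integers v).mem_of_integral h2
  exact h3

/-- the prime ideal -/
noncomputable def pid : Ideal (𝓞 F) where
  carrier := {x | ‖j (algebraMap (𝓞 F) F x)‖ < 1}
  zero_mem' := by
    change ‖j (algebraMap (𝓞 F) F 0)‖ < 1
    rw [map_zero, map_zero, norm_zero]
    exact one_pos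
  add_mem' := by
    intro a b ha hb
    change ‖j (algebraMap (𝓞 F) F (a + b))‖ < 1
    rw [map_add, map_add]
    exact (IsUltrametricDist.norm_add_le_max _ _).trans_lt (max_lt ha hb)
  smul_mem' := by
    intro a b hb
    change ‖j (algebraMap (𝓞 F) F (a * b))‖ < 1
    rw [map_mul, map_mul, norm_mul]
    exact mul_lt_one_of_nonneg_of_lt_one_right (norm_int j a) (norm_nonneg _) hb

lemma mem_pid (x : 𝓞 F) : x ∈ pid j ↔ ‖j (algebraMap (𝓞 F) F x)‖ < 1 := Iff.rfl

instance pid_prime : (pid j).IsPrime := by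
  refine ⟨?_, ?_⟩
  · rw [Ideal.ne_top_iff_one, mem_pid, map_one, map_one, norm_one]
    exact lt_irrefl _
  · intro x y hxy
    rw [mem_pid, map_mul, map_mul, norm_mul] at hxy
    by_contra h
    rw [not_or, mem_pid, mem_pid, not_lt, not_lt] at h
    have : 1 ≤ ‖j (algebraMap (𝓞 F) F x)‖ * ‖j (algebraMap (𝓞 F) F y)‖ :=
      one_le_mul_of_one_le_of_one_le h.1 h.2
    linarith

lemma pid_ne_bot : pid j ≠ ⊥ := by
  intro h
  have h1 : (p : 𝓞 F) ∈ pid j := by
    rw [mem_pid, map_natCast, map_natCast]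
    have h2 : ((p : ℕ) : PadicAlgCl p) = algebraMap ℚ_[p] (PadicAlgCl p) (p : ℚ_[p]) := by
      rw [map_natCast]
    have h3 := PadicAlgCl.norm_extends p (p : ℚ_[p])
    rw [h2]
    refine h3.trans_lt ?_
    exact Padic.norm_p_lt_one
  rw [h, Ideal.mem_bot] at h1
  have : (p : 𝓞 F) ≠ 0 := by exact_mod_cast hp.out.ne_zero
  exact this h1

/-- the place -/
noncomputable def pls : HeightOneSpectrum (𝓞 F) := ⟨pid j, inferInstance, pid_ne_bot j⟩

lemma norm_le_one_of_val {x : F} (hx : (pls j).valuation F x ≤ 1) : ‖j x‖ ≤ 1 := by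
  obtain ⟨n, d, h⟩ := (pls j).exists_primeCompl_mul_eq_of_integer x hx
  have hd : ‖j (algebraMap (𝓞 F) F d)‖ = 1 := by
    refine le_antisymm (norm_int j _) ?_
    have : (d : 𝓞 F) ∉ pid j := d.2
    rw [mem_pid, not_lt] at this
    exact this
  have h1 := congrArg (fun z => ‖j z‖) h
  simp only [map_mul, norm_mul] at h1
  rw [hd, mul_one] at h1
  rw [h1]
  exact norm_int j n

lemma exists_val_lt (ε : ℝ) (hε : 0 < ε) : ∃ π : F, π ≠ 0 ∧
    ∀ x : F, (pls j).valuation F x < (pls j).valuation F π → ‖j x‖ < ε := by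
  obtain ⟨a, ha, ha0⟩ := (Submodule.ne_bot_iff _).1 (pid_ne_bot j)
  rw [mem_pid] at ha
  obtain ⟨n, hn⟩ := exists_pow_lt_of_lt_one hε ha
  have ha1 : algebraMap (𝓞 F) F a ≠ 0 := by
    intro h
    exact ha0 ((FaithfulSMul.algebraMap_injective (𝓞 F) F) (by rw [h, map_zero]))
  refine ⟨(algebraMap (𝓞 F) F a) ^ n, pow_ne_zero _ ha1, fun x hx => ?_⟩
  have h1 : ‖j (x / (algebraMap (𝓞 F) F a) ^ n)‖ ≤ 1 := by
    apply norm_le_one_of_val
    rw [map_div₀]
    exact (div_le_one₀ (zero_lt_iff.2 ((Valuation.ne_zero_iff _).2 (pow_ne_zero _ ha1)))).2 hx.le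
  rw [map_div₀, norm_div, map_pow, norm_pow, div_le_one] at h1
  · exact h1.trans_lt hn
  · have : 0 < ‖j (algebraMap (𝓞 F) F a)‖ := norm_pos_iff.2 ((map_ne_zero j).2 ha1)
    positivity

/-- the local field -/
noncomputable def lf : IntermediateField ℚ_[p] (PadicAlgCl p) :=
  IntermediateField.adjoin ℚ_[p] (Set.range fun i => j (Module.finBasis ℚ F i))

instance lf_fin : FiniteDimensional ℚ_[p] (lf j) :=
  IntermediateField.finiteDimensional_adjoin fun x _ => Algebra.IsIntegral.isIntegral x

lemma mem_lf (x : F) : j x ∈ lf j := by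
  rw [← (Module.finBasis ℚ F).sum_repr x, map_sum]
  refine sum_mem fun i _ => ?_
  rw [Algebra.smul_def, map_mul]
  refine mul_mem ?_ (IntermediateField.subset_adjoin _ _ ⟨i, rfl⟩)
  have : j (algebraMap ℚ F ((Module.finBasis ℚ F).repr x i)) =
      algebraMap ℚ_[p] (PadicAlgCl p) (algebraMap ℚ ℚ_[p] ((Module.finBasis ℚ F).repr x i)) :=
    DFunLike.congr_fun (Subsingleton.elim (j.comp (algebraMap ℚ F))
      ((algebraMap ℚ_[p] (PadicAlgCl p)).comp (algebraMap ℚ ℚ_[p]))) _
  rw [this]
  exact IntermediateField.algebraMap_mem _ _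

lemma fix_lf (τ : PadicAlgCl p ≃ₐ[ℚ_[p]] PadicAlgCl p) (hτ : ∀ x : F, τ (j x) = j x)
    {y : PadicAlgCl p} (hy : y ∈ lf j) : τ y = y := by
  unfold lf at hy
  induction hy using IntermediateField.adjoin_induction with
  | mem z hz =>
    obtain ⟨i, rfl⟩ := hz
    exact hτ _
  | algebraMap z => exact τ.commutes z
  | add y z _ _ hy hz => rw [map_add, hy, hz]
  | mul y z _ _ hy hz => rw [map_mul, hy, hz]
  | inv y _ hy => rw [map_inv₀, hy]

noncomputable instance : NormedSpace ℚ_[p] (lf j) where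
  norm_smul_le a b := by
    change ‖((a • b : lf j) : PadicAlgCl p)‖ ≤ ‖a‖ * ‖(b : PadicAlgCl p)‖
    rw [IntermediateField.coe_smul]
    exact norm_smul_le _ _

instance lf_complete : CompleteSpace (lf j) := FiniteDimensional.complete ℚ_[p] (lf j)

/-- the map to the local field -/
noncomputable def jl : WithVal ((pls j).valuation F) →+* lf j :=
  (j.codRestrict (lf j) (mem_lf j)).comp (WithVal.equiv ((pls j).valuation F)).toRingHom

lemma jl_coe (x : WithVal ((pls j).valuation F)) :
    ((jl j x : lf j) : PadicAlgCl p) = j (WithVal.equiv ((pls j).valuation F) x) := rfl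

lemma jl_cont : Continuous (jl j) := by
  apply continuous_of_continuousAt_zero
  unfold ContinuousAt
  rw [map_zero, Metric.tendsto_nhds]
  intro ε hε
  obtain ⟨π, hπ0, hπ⟩ := exists_val_lt j ε hε
  rw [Filter.Eventually, Valued.mem_nhds_zero]
  have hv : (Valued.v : Valuation (WithVal ((pls j).valuation F)) _).restrict
      ((WithVal.equiv ((pls j).valuation F)).symm π) ≠ 0 := by
    rw [Ne, Valuation.restrict_eq_zero_iff]
    exact (Valuation.ne_zero_iff _).2 ((map_ne_zero_iff _ (RingEquiv.injective _)).2 hπ0)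
  refine ⟨Units.mk0 _ hv, fun x hx => ?_⟩
  have hx' : (Valued.v : Valuation (WithVal ((pls j).valuation F)) _).restrict x <
    (Valued.v : Valuation (WithVal ((pls j).valuation F)) _).restrict
      ((WithVal.equiv ((pls j).valuation F)).symm π) := hx
  rw [Valuation.restrict_lt_iff] at hx'
  change dist (jl j x) 0 < ε
  rw [dist_zero_right]
  exact hπ _ hx'

/-- the map from the completion -/
noncomputable def jc : (pls j).adicCompletion F →+* PadicAlgCl p :=
  ((lf j).val : lf j →+* PadicAlgCl p).comp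
    ((UniformSpace.Completion.extensionHom (jl j) (jl_cont j)).comp
      (HeightOneSpectrum.adicCompletion.equiv F (pls j)).toRingHom)

lemma jc_coe (x : F) : jc j (algebraMap F _ x) = j x := by
  change ((UniformSpace.Completion.extensionHom (jl j) (jl_cont j)
    ((WithVal.equiv ((pls j).valuation F)).symm x : ((pls j).valuation F).Completion) : lf j) :
      PadicAlgCl p) = j x
  rw [UniformSpace.Completion.extensionHom_coe]
  rfl

lemma place_p : ∃ (v : HeightOneSpectrum (𝓞 F)) (β : v.adicCompletion F →+* PadicAlgCl p),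
    (∀ x : F, β (algebraMap F _ x) = j x) ∧
    ∀ τ : PadicAlgCl p ≃ₐ[ℚ_[p]] PadicAlgCl p, (∀ x : F, τ (j x) = j x) → ∀ y, τ (β y) = β y :=
  ⟨pls j, jc j, jc_coe j, fun τ hτ _ => fix_lf j τ hτ (Subtype.property _)⟩

end padic

section real

variable {F : Type} [Field F] (j : F →+* AlgebraicClosure ℝ)

lemma place_r : ∃ (v : InfinitePlace F) (β : v.Completion →+* AlgebraicClosure ℝ),
    (∀ x : F, β (algebraMap F _ x) = j x) ∧
    ∀ τ : AlgebraicClosure ℝ ≃ₐ[ℝ] AlgebraicClosure ℝ, (∀ x : F, τ (j x) = j x) →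
      ∀ y, τ (β y) = β y := by
  have hcl : IsAlgClosure ℝ ℂ := ⟨inferInstance, Algebra.IsAlgebraic.of_finite ℝ ℂ⟩
  let c : AlgebraicClosure ℝ ≃ₐ[ℝ] ℂ := IsAlgClosure.equiv ℝ (AlgebraicClosure ℝ) ℂ
  let φ : F →+* ℂ := (c : AlgebraicClosure ℝ →+* ℂ).comp j
  let v : InfinitePlace F := InfinitePlace.mk φ
  have h1 : ∃ β₁ : v.Completion →+* ℂ, Continuous β₁ ∧ ∀ x : F, β₁ (algebraMap F _ x) = φ x := by
    rcases InfinitePlace.embedding_mk_eq φ with h | h
    · refine ⟨InfinitePlace.Completion.extensionEmbedding v,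
        (InfinitePlace.Completion.isometry_extensionEmbedding v).continuous, fun x => ?_⟩
      rw [InfinitePlace.Completion.algebraMap_apply]
      refine (InfinitePlace.Completion.extensionEmbedding_coe v
        ((WithAbs.equiv v.1).symm x)).trans ?_
      exact DFunLike.congr_fun h x
    · refine ⟨(starRingEnd ℂ).comp (InfinitePlace.Completion.extensionEmbedding v),
        Complex.continuous_conj.comp
          (InfinitePlace.Completion.isometry_extensionEmbedding v).continuous, fun x => ?_⟩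
      rw [InfinitePlace.Completion.algebraMap_apply]
      change (starRingEnd ℂ) (InfinitePlace.Completion.extensionEmbedding v _) = _
      have h2 := InfinitePlace.Completion.extensionEmbedding_coe v ((WithAbs.equiv v.1).symm x)
      refine (congrArg (starRingEnd ℂ) h2).trans ?_
      have h3 := DFunLike.congr_fun h x
      refine (congrArg (starRingEnd ℂ) h3).trans ?_
      exact Complex.conj_conj _
  obtain ⟨β₁, hβ, hβ1⟩ := h1
  refine ⟨v, (c.symm : ℂ →+* AlgebraicClosure ℝ).comp β₁, fun x => ?_, fun τ hτ y => ?_⟩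
  · change c.symm (β₁ _) = _
    rw [hβ1]
    exact c.symm_apply_apply _
  · let τ' : ℂ ≃ₐ[ℝ] ℂ := (c.symm.trans τ).trans c
    have h2 : ∀ x : F, τ' (φ x) = φ x := by
      intro x
      change c (τ (c.symm (c (j x)))) = c (j x)
      rw [c.symm_apply_apply, hτ]
    have h3 : τ' (β₁ y) = β₁ y := by
      rcases Complex.real_algHom_eq_id_or_conj τ'.toAlgHom with h | h
      · exact DFunLike.congr_fun h _
      · have h4 : ∀ z, τ' z = (starRingEnd ℂ) z := fun z => DFunLike.congr_fun h z
        rw [h4]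
        induction y using InfinitePlace.Completion.induction_on with
        | hp => exact isClosed_eq (Complex.continuous_conj.comp hβ) hβ
        | ih a =>
          have h5 := hβ1 (WithAbs.equiv v.1 a)
          have h6 := h2 (WithAbs.equiv v.1 a)
          rw [h4, ← h5] at h6
          exact h6
    change τ (c.symm (β₁ y)) = c.symm (β₁ y)
    apply c.injective
    rw [c.apply_symm_apply]
    exact h3

end real

end Pool.Agent.TH841.NF
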