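import Mathlib

/-!
# The map on points for a homomorphism of fields and a scaling
-/

set_option autoImplicit false

open WeierstrassCurve

namespace Pool.Agent.TH841.NF

/-- the coefficients of `W'` are those of `W`, scaled by `u` -/
structure Sc {F1 F2 : Type} [Field F1] [Field F2] (ι : F1 →+* F2) (u : F2)
    (W : WeierstrassCurve F1) (W' : WeierstrassCurve F2) : Prop where
  hu : u ≠ 0
  h1 : W'.a₁ = ι W.a₁ * u
  h2 : W'.a₂ = ι W.a₂ * u ^ 2
  h3 : W'.a₃ = ι W.a₃ * u ^ 3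
  h4 : W'.a₄ = ι W.a₄ * u ^ 4
  h6 : W'.a₆ = ι W.a₆ * u ^ 6

section tmap

variable {F1 F2 : Type} [Field F1] [Field F2]
variable {ι : F1 →+* F2} {u : F2} {W : WeierstrassCurve F1} {W' : WeierstrassCurve F2}
  (S : Sc ι u W W')

include S in
lemma eqn_iff (x y : F1) : W'.toAffine.Equation (ι x * u ^ 2) (ι y * u ^ 3) ↔
    W.toAffine.Equation x y := by
  have hu := S.hu
  rw [Affine.equation_iff, Affine.equation_iff, S.h1, S.h2, S.h3, S.h4, S.h6]
  have e1 : (ι y * u ^ 3) ^ 2 + ι W.a₁ * u * (ι x * u ^ 2) * (ι y * u ^ 3) +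
      ι W.a₃ * u ^ 3 * (ι y * u ^ 3) = ι (y ^ 2 + W.a₁ * x * y + W.a₃ * y) * u ^ 6 := by
    simp only [map_add, map_mul, map_pow]; ring
  have e2 : (ι x * u ^ 2) ^ 3 + ι W.a₂ * u ^ 2 * (ι x * u ^ 2) ^ 2 + ι W.a₄ * u ^ 4 *
      (ι x * u ^ 2) + ι W.a₆ * u ^ 6 =
      ι (x ^ 3 + W.a₂ * x ^ 2 + W.a₄ * x + W.a₆) * u ^ 6 := by
    simp only [map_add, map_mul, map_pow]; ring
  rw [e1, e2]
  constructor
  · intro h
    exact ι.injective (mul_right_cancel₀ (pow_ne_zero 6 hu) h)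
  · intro h
    rw [h]

include S in
lemma negY_eq (x y : F1) : W'.toAffine.negY (ι x * u ^ 2) (ι y * u ^ 3) =
    ι (W.toAffine.negY x y) * u ^ 3 := by
  simp only [Affine.negY, S.h1, S.h3, map_sub, map_neg, map_mul]
  ring

include S in
lemma ns_iff (x y : F1) : W'.toAffine.Nonsingular (ι x * u ^ 2) (ι y * u ^ 3) ↔
    W.toAffine.Nonsingular x y := by
  have hu := S.hu
  rw [Affine.nonsingular_iff, Affine.nonsingular_iff, eqn_iff S]
  have e1 : (W'.a₁ * (ι y * u ^ 3) ≠ 3 * (ι x * u ^ 2) ^ 2 + 2 * W'.a₂ * (ι x * u ^ 2) + W'.a₄) ↔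
      (W.a₁ * y ≠ 3 * x ^ 2 + 2 * W.a₂ * x + W.a₄) := by
    have h1 : W'.a₁ * (ι y * u ^ 3) = ι (W.a₁ * y) * u ^ 4 := by
      rw [S.h1, map_mul]; ring
    have h2 : 3 * (ι x * u ^ 2) ^ 2 + 2 * W'.a₂ * (ι x * u ^ 2) + W'.a₄ =
        ι (3 * x ^ 2 + 2 * W.a₂ * x + W.a₄) * u ^ 4 := by
      rw [S.h2, S.h4]
      simp only [map_add, map_mul, map_pow, map_ofNat]; ring
    rw [h1, h2]
    apply not_congr
    constructor
    · intro h
      exact ι.injective (mul_right_cancel₀ (pow_ne_zero 4 hu) h)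
    · intro h
      rw [h]
  have e2 : (ι y * u ^ 3 ≠ -(ι y * u ^ 3) - W'.a₁ * (ι x * u ^ 2) - W'.a₃) ↔
      (y ≠ -y - W.a₁ * x - W.a₃) := by
    have h1 : -(ι y * u ^ 3) - W'.a₁ * (ι x * u ^ 2) - W'.a₃ =
        ι (-y - W.a₁ * x - W.a₃) * u ^ 3 := by
      rw [S.h1, S.h3]
      simp only [map_sub, map_neg, map_mul]; ring
    rw [h1]
    apply not_congr
    constructor
    · intro h
      exact ι.injective (mul_right_cancel₀ (pow_ne_zero 3 hu) h)
    · intro h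
      rw [← h]
  rw [e1, e2]

variable [DecidableEq F1] [DecidableEq F2]

include S in
lemma slope_eq (x₁ x₂ y₁ y₂ : F1) :
    W'.toAffine.slope (ι x₁ * u ^ 2) (ι x₂ * u ^ 2) (ι y₁ * u ^ 3) (ι y₂ * u ^ 3) =
      ι (W.toAffine.slope x₁ x₂ y₁ y₂) * u := by
  have hu := S.hu
  have hu3 : u ^ 3 ≠ 0 := pow_ne_zero _ hu
  have hu2 : u ^ 2 ≠ 0 := pow_ne_zero _ hu
  by_cases hx : x₁ = x₂
  · by_cases hy : y₁ = W.toAffine.negY x₂ y₂
    · rw [Affine.slope_of_Y_eq hx hy, Affine.slope_of_Y_eq (by rw [hx])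
        (by rw [negY_eq S, hy]), map_zero, zero_mul]
    · have hy' : ι y₁ * u ^ 3 ≠ W'.toAffine.negY (ι x₂ * u ^ 2) (ι y₂ * u ^ 3) := by
        rw [negY_eq S]
        exact fun h => hy (ι.injective (mul_right_cancel₀ hu3 h))
      rw [Affine.slope_of_Y_ne hx hy, Affine.slope_of_Y_ne (by rw [hx]) hy',
        negY_eq S, map_div₀]
      have e1 : 3 * (ι x₁ * u ^ 2) ^ 2 + 2 * W'.a₂ * (ι x₁ * u ^ 2) + W'.a₄ -
          W'.a₁ * (ι y₁ * u ^ 3) =
          ι (3 * x₁ ^ 2 + 2 * W.a₂ * x₁ + W.a₄ - W.a₁ * y₁) * u * u ^ 3 := by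
        rw [S.h1, S.h2, S.h4]
        simp only [map_add, map_sub, map_mul, map_pow, map_ofNat]; ring
      rw [e1, ← sub_mul, mul_div_mul_right _ _ hu3, ← map_sub]
      ring
  · have hx' : ι x₁ * u ^ 2 ≠ ι x₂ * u ^ 2 :=
      fun h => hx (ι.injective (mul_right_cancel₀ hu2 h))
    rw [Affine.slope_of_X_ne hx, Affine.slope_of_X_ne hx', map_div₀, map_sub, map_sub]
    have e1 : ι y₁ * u ^ 3 - ι y₂ * u ^ 3 = ((ι y₁ - ι y₂) * u) * u ^ 2 := by ring
    rw [e1, ← sub_mul, mul_div_mul_right _ _ hu2]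
    ring

include S in
omit [DecidableEq F1] [DecidableEq F2] in
lemma addX_eq (x₁ x₂ l : F1) :
    W'.toAffine.addX (ι x₁ * u ^ 2) (ι x₂ * u ^ 2) (ι l * u) =
      ι (W.toAffine.addX x₁ x₂ l) * u ^ 2 := by
  simp only [Affine.addX, S.h1, S.h2, map_add, map_sub, map_pow, map_mul]
  ring

include S in
omit [DecidableEq F1] [DecidableEq F2] in
lemma addY_eq (x₁ x₂ y₁ l : F1) :
    W'.toAffine.addY (ι x₁ * u ^ 2) (ι x₂ * u ^ 2) (ι y₁ * u ^ 3) (ι l * u) =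
      ι (W.toAffine.addY x₁ x₂ y₁ l) * u ^ 3 := by
  simp only [Affine.addY, Affine.negAddY, Affine.negY, Affine.addX, S.h1, S.h2, S.h3, map_sub,
    map_pow, map_neg, map_add, map_mul]
  ring

/-- the map on points -/
def tF : W.toAffine.Point → W'.toAffine.Point
  | 0 => 0
  | .some x y h => .some (ι x * u ^ 2) (ι y * u ^ 3) ((ns_iff S x y).2 h)

omit [DecidableEq F1] [DecidableEq F2] in
lemma tF_zero : tF S 0 = 0 := rfl

omit [DecidableEq F1] [DecidableEq F2] in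
lemma tF_some (x y : F1) (h : W.toAffine.Nonsingular x y) :
    tF S (.some x y h) =
      .some (ι x * u ^ 2) (ι y * u ^ 3) ((ns_iff S x y).2 h) := rfl

lemma tF_add (P Q : W.toAffine.Point) :
    tF S (P + Q) = tF S P + tF S Q := by
  have hu := S.hu
  have hu3 : u ^ 3 ≠ 0 := pow_ne_zero _ hu
  have hu2 : u ^ 2 ≠ 0 := pow_ne_zero _ hu
  match P, Q with
  | 0, Q => rw [zero_add, tF_zero, zero_add]
  | .some x y h, 0 => rw [add_zero, tF_zero, add_zero]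
  | .some x₁ y₁ h₁, .some x₂ y₂ h₂ =>
    rw [tF_some, tF_some]
    by_cases hxy : x₁ = x₂ ∧ y₁ = W.toAffine.negY x₂ y₂
    · rw [Affine.Point.add_of_Y_eq hxy.1 hxy.2,
        Affine.Point.add_of_Y_eq (by rw [hxy.1]) (by rw [hxy.2, negY_eq S]),
        tF_zero]
    · have hxy' : ¬ (ι x₁ * u ^ 2 = ι x₂ * u ^ 2 ∧
          ι y₁ * u ^ 3 = W'.toAffine.negY (ι x₂ * u ^ 2) (ι y₂ * u ^ 3)) := by
        rintro ⟨q1, q2⟩
        apply hxy
        refine ⟨ι.injective (mul_right_cancel₀ hu2 q1), ?_⟩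
        rw [negY_eq S] at q2
        exact ι.injective (mul_right_cancel₀ hu3 q2)
      rw [Affine.Point.add_some hxy, Affine.Point.add_some hxy', tF_some]
      rw [Affine.Point.some.injEq, slope_eq S, addX_eq S, addY_eq S]
      exact ⟨rfl, rfl⟩

end tmap

end Pool.Agent.TH841.NF
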