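import Mathlib
import Pool.Agent.TH841.NF.Tm
import Pool.Agent.TH841.SH.ShaDef

/-!
# The scaling maps on the points and the Galois action
-/

set_option autoImplicit false

namespace Pool.Agent.TH841.NF

open WeierstrassCurve

open Pool.Agent.TH841.SH.D (Pt act Gal Coch IsCoc IsCob LocTriv)

section tm

variable {k k' k'' : Type} [Field k] [Field k'] [Field k''] {W : WeierstrassCurve k}
  {W' : WeierstrassCurve k'} {W'' : WeierstrassCurve k''}
  {L L' L'' : Type} [Field L] [Algebra k L] [Field L'] [Algebra k' L'] [Field L'']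
  [Algebra k'' L'']

/-- the map on points -/
noncomputable def tm {φ : L →+* L'} {u : L'} (S : Sc φ u (W.baseChange L) (W'.baseChange L')) :
    Pt W L →+ Pt W' L' where
  toFun := tF S
  map_zero' := rfl
  map_add' := @tF_add _ _ _ _ _ _ _ _ S (Classical.decEq L) (Classical.decEq L')

lemma tm_zero {φ : L →+* L'} {u : L'} (S : Sc φ u (W.baseChange L) (W'.baseChange L')) :
    tm S (Affine.Point.zero : (W.baseChange L).toAffine.Point) =
      (Affine.Point.zero : (W'.baseChange L').toAffine.Point) := rfl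

lemma tm_some {φ : L →+* L'} {u : L'} (S : Sc φ u (W.baseChange L) (W'.baseChange L'))
    (x y : L) (h : (W.baseChange L).toAffine.Nonsingular x y) :
    tm S (Affine.Point.some x y h) =
      (Affine.Point.some (φ x * u ^ 2) (φ y * u ^ 3) ((ns_iff S x y).2 h) :
        (W'.baseChange L').toAffine.Point) := rfl

lemma act_some' (W : WeierstrassCurve k) {F L : Type} [Field F] [Field L] [Algebra k F]
    [Algebra k L] (φ : F →ₐ[k] L) (x y : F) (h : (W.baseChange F).toAffine.Nonsingular x y) :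
    act W φ (Affine.Point.some x y h) = (Affine.Point.some (φ x) (φ y)
      ((Affine.baseChange_nonsingular W (f := φ) φ.injective x y).mpr h) :
        (W.baseChange L).toAffine.Point) := rfl

lemma act_zero' (W : WeierstrassCurve k) {F L : Type} [Field F] [Field L] [Algebra k F]
    [Algebra k L] (φ : F →ₐ[k] L) :
    act W φ (Affine.Point.zero : (W.baseChange F).toAffine.Point) =
      (Affine.Point.zero : (W.baseChange L).toAffine.Point) := rfl

lemma pt_ext {x y x' y' : L} (h : (W.baseChange L).toAffine.Nonsingular x y)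
    (h' : (W.baseChange L).toAffine.Nonsingular x' y') (hx : x = x') (hy : y = y') :
    @Eq (Pt W L) (Affine.Point.some x y h) (Affine.Point.some x' y' h') := by
  subst hx hy
  rfl

lemma pt_inj {x y x' y' : L} (h : (W.baseChange L).toAffine.Nonsingular x y)
    (h' : (W.baseChange L).toAffine.Nonsingular x' y')
    (e : @Eq (Pt W L) (Affine.Point.some x y h) (Affine.Point.some x' y' h')) :
    x = x' ∧ y = y' := by
  have e' : @Eq (W.baseChange L).toAffine.Point (Affine.Point.some x y h)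
    (Affine.Point.some x' y' h') := e
  rwa [Affine.Point.some.injEq] at e'

lemma tm_tm {φ₁ : L →+* L'} {u₁ : L'} (S₁ : Sc φ₁ u₁ (W.baseChange L) (W'.baseChange L'))
    {φ₂ : L' →+* L''} {u₂ : L''} (S₂ : Sc φ₂ u₂ (W'.baseChange L') (W''.baseChange L''))
    {φ : L →+* L''} {u : L''} (S : Sc φ u (W.baseChange L) (W''.baseChange L''))
    (hφ : ∀ x, φ₂ (φ₁ x) = φ x) (hu : u = φ₂ u₁ * u₂) (P : Pt W L) :
    tm S₂ (tm S₁ P) = tm S P := by
  rcases P with _ | ⟨x, y, h⟩
  · rfl
  · rw [tm_some, tm_some, tm_some]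
    refine pt_ext _ _ ?_ ?_
    · rw [map_mul, map_pow, hφ, hu]; ring
    · rw [map_mul, map_pow, hφ, hu]; ring

lemma tm_act {φ₁ : L →+* L'} {u₁ : L'} (S₁ : Sc φ₁ u₁ (W.baseChange L) (W'.baseChange L'))
    [Algebra k' L''] (φ₂ : L' →ₐ[k'] L'')
    {φ : L →+* L''} {u : L''} (S : Sc φ u (W.baseChange L) (W'.baseChange L''))
    (hφ : ∀ x, φ₂ (φ₁ x) = φ x) (hu : u = φ₂ u₁) (P : Pt W L) :
    act W' φ₂ (tm S₁ P) = tm S P := by
  rcases P with _ | ⟨x, y, h⟩
  · rfl
  · rw [tm_some, act_some', tm_some]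
    refine pt_ext _ _ ?_ ?_
    · rw [map_mul, map_pow, hφ, hu]
    · rw [map_mul, map_pow, hφ, hu]

lemma act_tm [Algebra k L'] (φ₁ : L →ₐ[k] L')
    {φ₂ : L' →+* L''} {u₂ : L''} (S₂ : Sc φ₂ u₂ (W.baseChange L') (W''.baseChange L''))
    {φ : L →+* L''} (S : Sc φ u₂ (W.baseChange L) (W''.baseChange L''))
    (hφ : ∀ x, φ₂ (φ₁ x) = φ x) (P : Pt W L) :
    tm S₂ (act W φ₁ P) = tm S P := by
  rcases P with _ | ⟨x, y, h⟩
  · rfl
  · rw [act_some', tm_some, tm_some]
    refine pt_ext _ _ ?_ ?_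
    · rw [hφ]
    · rw [hφ]

lemma tm_congr {φ φ' : L →+* L'} {u u' : L'} (S : Sc φ u (W.baseChange L) (W'.baseChange L'))
    (S' : Sc φ' u' (W.baseChange L) (W'.baseChange L')) (hφ : ∀ x, φ x = φ' x) (hu : u = u')
    (P : Pt W L) : tm S P = tm S' P := by
  rcases P with _ | ⟨x, y, h⟩
  · rfl
  · rw [tm_some, tm_some]
    refine pt_ext _ _ ?_ ?_
    · rw [hφ, hu]
    · rw [hφ, hu]

lemma tm_neg {φ φ' : L →+* L'} {u u' : L'} (S : Sc φ u (W.baseChange L) (W'.baseChange L'))
    (S' : Sc φ' u' (W.baseChange L) (W'.baseChange L')) (hφ : ∀ x, φ x = φ' x) (hu : u = -u')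
    (h1 : (W'.baseChange L').a₁ = 0) (h3 : (W'.baseChange L').a₃ = 0)
    (P : Pt W L) : tm S P = -tm S' P := by
  rcases P with _ | ⟨x, y, h⟩
  · rfl
  · rw [tm_some, tm_some]
    refine Eq.trans ?_ (Affine.Point.neg_some _).symm
    refine pt_ext _ _ ?_ ?_
    · rw [hφ, hu]; ring
    · rw [Affine.negY, h1, h3, hφ, hu]
      ring

lemma tm_id {φ : L →+* L} {u : L} (S : Sc φ u (W.baseChange L) (W.baseChange L))
    (hφ : ∀ x, φ x = x) (hu : u = 1) (P : Pt W L) : tm S P = P := by
  rcases P with _ | ⟨x, y, h⟩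
  · rfl
  · rw [tm_some]
    refine pt_ext _ _ ?_ ?_
    · rw [hφ, hu]; ring
    · rw [hφ, hu]; ring

lemma tm_inj {φ : L →+* L'} {u : L'} (S : Sc φ u (W.baseChange L) (W'.baseChange L')) :
    Function.Injective (tm S) := by
  have hu := S.hu
  intro P Q h
  rcases P with _ | ⟨x, y, hx⟩ <;> rcases Q with _ | ⟨x', y', hx'⟩
  · rfl
  · rw [tm_zero, tm_some] at h
    cases h
  · rw [tm_zero, tm_some] at h
    cases h
  · rw [tm_some, tm_some] at h
    have h' := pt_inj _ _ h
    exact pt_ext _ _ (φ.injective (mul_right_cancel₀ (pow_ne_zero 2 hu) h'.1))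
      (φ.injective (mul_right_cancel₀ (pow_ne_zero 3 hu) h'.2))

end tm

section gal

variable {k : Type} [Field k]

/-- a continuous cocycle vanishes on the automorphisms that fix a finite set -/
lemma coc_fin {W : WeierstrassCurve k} {f : Coch W} (hf : IsCoc W f) :
    ∃ S : Finset (AlgebraicClosure k), ∀ τ : Gal k, (∀ x ∈ S, τ x = x) → f τ = 0 := by
  classical
  have h1 : f 1 = 0 := by
    have := hf.2 1 1
    have e : act W (1 : Gal k).toAlgHom (f 1) = f 1 := by
      rcases f 1 with _ | ⟨x, y, h⟩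
      · rfl
      · rw [act_some']
        rfl
    rw [one_mul, e] at this
    exact left_eq_add.1 this
  have h2 : f ⁻¹' {0} ∈ nhds (1 : Gal k) := (hf.1.isOpen_fiber 0).mem_nhds h1
  obtain ⟨E, hE, hEs⟩ := (krullTopology_mem_nhds_one_iff k (AlgebraicClosure k) _).1 h2
  let b := Module.finBasis k E
  refine ⟨Finset.univ.image fun i => (b i : AlgebraicClosure k), fun τ hτ => ?_⟩
  apply hEs
  show τ ∈ E.fixingSubgroup
  rw [IntermediateField.mem_fixingSubgroup_iff]
  intro x hx
  have h3 : ((∑ i, b.repr ⟨x, hx⟩ i • b i : E) : AlgebraicClosure k) = x :=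
    congrArg (Subtype.val) (b.sum_repr ⟨x, hx⟩)
  rw [← h3]
  have h4 : ∀ i, τ (b i : AlgebraicClosure k) = b i := fun i =>
    hτ _ (Finset.mem_image_of_mem _ (Finset.mem_univ i))
  simp only [IntermediateField.coe_sum, IntermediateField.coe_smul, map_sum, map_smul, h4]

/-- the converse -/
lemma coc_of_fin {W : WeierstrassCurve k} {f : Coch W}
    (hf : ∀ σ τ : Gal k, f (σ * τ) = f σ + act W σ.toAlgHom (f τ))
    (S : Finset (AlgebraicClosure k)) (hS : ∀ τ : Gal k, (∀ x ∈ S, τ x = x) → f τ = 0) :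
    IsCoc W f := by
  refine ⟨(IsLocallyConstant.iff_exists_open
    (f : Gal k → Pt W (AlgebraicClosure k))).2 ?_, hf⟩
  intro σ
  have : FiniteDimensional k (IntermediateField.adjoin k (S : Set (AlgebraicClosure k))) :=
    IntermediateField.finiteDimensional_adjoin fun x _ => Algebra.IsIntegral.isIntegral x
  refine ⟨(fun τ => σ⁻¹ * τ) ⁻¹'
    ((IntermediateField.adjoin k (S : Set (AlgebraicClosure k))).fixingSubgroup : Set (Gal k)),
    (IntermediateField.fixingSubgroup_isOpen _).preimage (continuous_const_mul _), ?_, ?_⟩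
  · show σ⁻¹ * σ ∈ (IntermediateField.adjoin k (S : Set (AlgebraicClosure k))).fixingSubgroup
    rw [inv_mul_cancel]
    exact one_mem _
  · intro τ hτ
    have h1 : σ⁻¹ * τ ∈ (IntermediateField.adjoin k
      (S : Set (AlgebraicClosure k))).fixingSubgroup := hτ
    rw [IntermediateField.mem_fixingSubgroup_iff] at h1
    have h2 := hS (σ⁻¹ * τ) fun x hx => h1 x (IntermediateField.subset_adjoin k _ hx)
    have h3 := hf σ (σ⁻¹ * τ)
    rw [mul_inv_cancel_left, h2, map_zero, add_zero] at h3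
    exact h3

end gal

end Pool.Agent.TH841.NF
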