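import Mathlib

/-!
# Corestriction of cocycles, with a quadratic character
-/

set_option autoImplicit false

namespace Pool.Agent.TH841.NF

open Finset

variable {G M : Type} [Group G] [AddCommGroup M] {H : Subgroup G}

section cor

variable [Fintype (G ⧸ H)]

/-- the corestriction of `f` from `H` to `G`, with the action of `G` twisted by `χ` -/
noncomputable def cor (s : G ⧸ H → G) (a : G →* AddMonoid.End M) (χ : G →* ℤ) (f : G → M)
    (g : G) : M :=
  ∑ q : G ⧸ H, χ (s (g • q)) • a (s (g • q)) (f ((s (g • q))⁻¹ * g * s q))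

variable {s : G ⧸ H → G} (hs : ∀ q, (s q : G ⧸ H) = q)
variable (a : G →* AddMonoid.End M) {χ : G →* ℤ} (hχ : ∀ h ∈ H, χ h = 1)

include hs in
omit [Fintype (G ⧸ H)] in
lemma mem_H (g : G) (q : G ⧸ H) : (s (g • q))⁻¹ * g * s q ∈ H := by
  rw [mul_assoc, ← QuotientGroup.eq, hs]
  conv_lhs => rw [← hs q]
  rfl

include hs hχ in
omit [Fintype (G ⧸ H)] in
lemma chi_s (g : G) (q : G ⧸ H) : χ (s (g • q)) = χ g * χ (s q) := by
  have h1 := hχ _ (mem_H hs g q)
  have h2 : g * s q = s (g • q) * ((s (g • q))⁻¹ * g * s q) := by group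
  rw [← map_mul, h2, map_mul, h1, mul_one]

/-- values of the action -/
lemma a_mul (g g' : G) (x : M) : a (g * g') x = a g (a g' x) := by
  rw [map_mul]
  rfl

lemma a_one (x : M) : a 1 x = x := by
  rw [map_one]
  rfl

include hs hχ in
/-- the corestriction of a cocycle is a cocycle -/
lemma cor_coc {f : G → M} (hf : ∀ x ∈ H, ∀ y ∈ H, f (x * y) = f x + a x (f y)) (g g' : G) :
    cor s a χ f (g * g') = cor s a χ f g + χ g • a g (cor s a χ f g') := by
  have e1 : cor s a χ f g = ∑ q : G ⧸ H, χ (s (g • g' • q)) • a (s (g • g' • q))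
      (f ((s (g • g' • q))⁻¹ * g * s (g' • q))) := by
    unfold cor
    exact (Equiv.sum_comp (MulAction.toPerm g' : Equiv.Perm (G ⧸ H)) (fun q : G ⧸ H =>
      χ (s (g • q)) • a (s (g • q)) (f ((s (g • q))⁻¹ * g * s q)))).symm
  rw [e1]
  unfold cor
  rw [map_sum, smul_sum, ← sum_add_distrib]
  refine sum_congr rfl fun q _ => ?_
  have h1 := mem_H hs g (g' • q)
  have h2 := mem_H hs g' q
  have e0 : (g * g') • q = g • g' • q := mul_smul g g' q
  rw [e0]
  have e2 : (s (g • g' • q))⁻¹ * (g * g') * s q =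
      ((s (g • g' • q))⁻¹ * g * s (g' • q)) * ((s (g' • q))⁻¹ * g' * s q) := by
    group
  rw [e2, hf _ h1 _ h2, map_add, smul_add]
  congr 1
  rw [← a_mul, map_zsmul, ← a_mul, smul_smul (χ g), chi_s hs hχ g (g' • q)]
  congr 2
  congr 1
  group

include hs hχ in
/-- the corestriction of a coboundary is a coboundary -/
lemma cor_cob {f : G → M} (P : M) (hf : ∀ x ∈ H, f x = a x P - P) (g : G) :
    cor s a χ f g = χ g • a g (∑ q : G ⧸ H, χ (s q) • a (s q) P) -
      ∑ q : G ⧸ H, χ (s q) • a (s q) P := by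
  have e1 : ∑ q : G ⧸ H, χ (s q) • a (s q) P =
      ∑ q : G ⧸ H, χ (s (g • q)) • a (s (g • q)) P :=
    (Equiv.sum_comp (MulAction.toPerm g : Equiv.Perm (G ⧸ H)) (fun q : G ⧸ H =>
      χ (s q) • a (s q) P)).symm
  conv_rhs => rw [sub_eq_add_neg]; arg 2; rw [e1]
  rw [← sub_eq_add_neg, map_sum, smul_sum, ← sum_sub_distrib]
  unfold cor
  refine sum_congr rfl fun q _ => ?_
  rw [hf _ (mem_H hs g q), map_sub, smul_sub, ← a_mul]
  congr 1
  rw [map_zsmul, ← a_mul, smul_smul, chi_s hs hχ g q]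
  congr 2
  congr 1
  group

lemma cor_add (f f' : G → M) (g : G) :
    cor s a χ (f + f') g = cor s a χ f g + cor s a χ f' g := by
  unfold cor
  rw [← sum_add_distrib]
  refine sum_congr rfl fun q _ => ?_
  rw [Pi.add_apply, map_add, smul_add]

/-- vanishing -/
lemma cor_zero_of (f : G → M) (g : G) (h : ∀ q : G ⧸ H, f ((s (g • q))⁻¹ * g * s q) = 0) :
    cor s a χ f g = 0 := by
  unfold cor
  refine sum_eq_zero fun q _ => ?_
  rw [h, map_zero, smul_zero]

end cor

/-! ### Several characters -/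

section sum

variable [Fintype (G ⧸ H)] [hN : H.Normal]
variable {s : G ⧸ H → G} (hs : ∀ q, (s q : G ⧸ H) = q) (hs1 : s ((1 : G) : G ⧸ H) = 1)
variable (a : G →* AddMonoid.End M)

include hs hs1 in
/-- the sum over all the characters of `G / H` of the restriction of the corestriction -/
lemma sum_cor {T : Type} [Fintype T] (χ : T → (G →* ℤ)) (n : ℤ)
    (hn : ∀ g ∈ H, ∑ t, χ t g = n) (hn0 : ∀ g, g ∉ H → ∑ t, χ t g = 0) (f : G → M) (h : G)
    (hh : h ∈ H) : ∑ t, cor s a (χ t) f h = n • f h := by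
  have hq : ∀ q : G ⧸ H, h • q = q := by
    intro q
    induction q using QuotientGroup.induction_on with
    | H g =>
      change ((h * g : G) : G ⧸ H) = g
      rw [eq_comm, QuotientGroup.eq, ← mul_assoc]
      have := hN.conj_mem h hh g⁻¹
      rwa [inv_inv] at this
  unfold cor
  rw [sum_comm, sum_eq_single ((1 : G) : G ⧸ H)]
  · rw [← sum_smul, hq, hs1, hn 1 H.one_mem, a_one]
    congr 2
    group
  · intro q _ hq1
    rw [← sum_smul, hq, hn0 (s q), zero_smul]
    intro hmem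
    apply hq1
    rw [← hs q, eq_comm, QuotientGroup.eq]
    simpa using hmem
  · intro h0
    exact absurd (mem_univ _) h0

end sum

/-! ### Local triviality -/

section loc

/-- the data: `J` is a set of embeddings, `L` a local Galois group -/
structure Loc (G M J L N : Type) [Group G] [AddCommGroup M] [Group L] [AddCommGroup N] where
  /-- the action of `G` -/
  a : G →* AddMonoid.End M
  /-- the action of `L` -/
  b : L →* AddMonoid.End N
  /-- composition -/
  lc : L → J → J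
  /-- composition -/
  rc : J → G → J
  /-- the map on points -/
  st : J → M →+ N
  lc_mul : ∀ τ τ' j, lc (τ * τ') j = lc τ (lc τ' j)
  lc_one : ∀ j, lc 1 j = j
  rc_mul : ∀ j g g', rc j (g * g') = rc (rc j g) g'
  rc_one : ∀ j, rc j 1 = j
  comm : ∀ τ j g, lc τ (rc j g) = rc (lc τ j) g
  st_l : ∀ τ j x, st (lc τ j) x = b τ (st j x)
  st_r : ∀ j g x, st (rc j g) x = st j (a g x)

variable {J L N : Type} [Group L] [AddCommGroup N] (D : Loc G M J L N)


/-- the relation on the embeddings -/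
def rel (H : Subgroup G) (j j' : J) : Prop := ∃ τ : L, ∃ h ∈ H, D.lc τ j = D.rc j' h

lemma lc_inv (τ : L) (j j' : J) (g : G) (h : D.lc τ j = D.rc j' g) :
    D.lc τ⁻¹ j' = D.rc j g⁻¹ := by
  have h1 : D.rc (D.lc τ j) g⁻¹ = j' := by rw [h, ← D.rc_mul, mul_inv_cancel, D.rc_one]
  rw [← h1, ← D.comm, ← D.lc_mul, inv_mul_cancel, D.lc_one]

lemma lc_trans {τ τ' : L} {j j' j'' : J} {g g' : G} (h : D.lc τ j = D.rc j' g)
    (h' : D.lc τ' j' = D.rc j'' g') : D.lc (τ' * τ) j = D.rc j'' (g' * g) := by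
  rw [D.lc_mul, h, D.comm, h', D.rc_mul]

/-- the setoid -/
def setd (H : Subgroup G) : Setoid J where
  r := rel D H
  iseqv := by
    refine ⟨fun j => ⟨1, 1, H.one_mem, by rw [D.lc_one, D.rc_one]⟩, ?_, ?_⟩
    · rintro j j' ⟨τ, h, hh, e⟩
      exact ⟨τ⁻¹, h⁻¹, H.inv_mem hh, lc_inv D τ j j' h e⟩
    · rintro j j' j'' ⟨τ, h, hh, e⟩ ⟨τ', h', hh', e'⟩
      exact ⟨τ' * τ, h' * h, H.mul_mem hh' hh, lc_trans D e e'⟩

/-- a compatible family of trivialisations -/
lemma exists_family {f : G → M} (hf : ∀ x ∈ H, ∀ y ∈ H, f (x * y) = f x + D.a x (f y))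
    (hloc : ∀ j, ∃ P, ∀ τ, ∀ h ∈ H, D.lc τ j = D.rc j h → D.st j (f h) = D.b τ P - P) :
    ∃ P : J → N, ∀ τ j j', ∀ h ∈ H, D.lc τ j = D.rc j' h →
      D.st j' (f h) = D.b τ (P j) - P j' := by
  classical
  choose P0 hP0 using hloc
  let rep : J → J := fun j => (Quotient.mk (setd D H) j).out
  have hrep : ∀ j, ∃ τ : L, ∃ h ∈ H, D.lc τ (rep j) = D.rc j h := fun j =>
    Quotient.exact (s := setd D H) (Quotient.out_eq _)
  choose t k hk htk using hrep
  refine ⟨fun j => D.b (t j) (P0 (rep j)) - D.st j (f (k j)), ?_⟩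
  intro τ j j' h hh e
  have hrr : rep j = rep j' := by
    simp only [rep]
    congr 1
    exact Quotient.sound (s := setd D H) ⟨τ, h, hh, e⟩
  have e1 := htk j
  have e2 := htk j'
  rw [← hrr] at e2
  have e3 : D.lc ((t j')⁻¹ * (τ * t j)) (rep j) = D.rc (rep j) ((k j')⁻¹ * (h * k j)) :=
    lc_trans D (lc_trans D e1 e) (lc_inv D _ _ _ _ e2)
  have h3 : (k j')⁻¹ * (h * k j) ∈ H := H.mul_mem (H.inv_mem (hk j')) (H.mul_mem hh (hk j))
  have e4 := hP0 (rep j) _ _ h3 e3
  have e5 := congrArg (D.b (t j')) e4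
  rw [map_sub, ← D.st_l, e2, D.st_r] at e5
  have e6 : D.b (t j') (D.b ((t j')⁻¹ * (τ * t j)) (P0 (rep j))) =
      D.b τ (D.b (t j) (P0 (rep j))) := by
    have : t j' * ((t j')⁻¹ * (τ * t j)) = τ * t j := by group
    rw [← a_mul, this, a_mul]
  rw [e6] at e5
  have e7 : f (h * k j) = f (k j') + D.a (k j') (f ((k j')⁻¹ * (h * k j))) := by
    rw [← hf _ (hk j') _ h3]
    congr 1
    group
  rw [hf _ hh _ (hk j)] at e7
  have e8 := congrArg (D.st j') e7
  rw [map_add, map_add, e5, ← D.st_r, ← e, D.st_l] at e8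
  simp only [map_sub]
  rw [← hrr]
  have e9 : D.st j' (f h) = D.st j' (f (k j')) + ((D.b τ) ((D.b (t j)) (P0 (rep j))) -
      (D.b (t j')) (P0 (rep j))) - D.b τ (D.st j (f (k j))) := by
    rw [← e8]; abel
  rw [e9]
  abel

variable [Fintype (G ⧸ H)] {s : G ⧸ H → G} (hs : ∀ q, (s q : G ⧸ H) = q)
  {χ : G →* ℤ} (hχ : ∀ h ∈ H, χ h = 1)

include hs hχ in
/-- the corestriction of a locally trivial cocycle is locally trivial -/
lemma cor_loc {f : G → M} (hf : ∀ x ∈ H, ∀ y ∈ H, f (x * y) = f x + D.a x (f y))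
    (hloc : ∀ j, ∃ P, ∀ τ, ∀ h ∈ H, D.lc τ j = D.rc j h → D.st j (f h) = D.b τ P - P) (j : J) :
    ∃ R, ∀ τ g, D.lc τ j = D.rc j g → D.st j (cor s D.a χ f g) = χ g • D.b τ R - R := by
  obtain ⟨P, hP⟩ := exists_family D hf hloc
  refine ⟨∑ q : G ⧸ H, χ (s q) • P (D.rc j (s q)), fun τ g e => ?_⟩
  have e1 : ∑ q : G ⧸ H, χ (s q) • P (D.rc j (s q)) =
      ∑ q : G ⧸ H, χ (s (g • q)) • P (D.rc j (s (g • q))) :=
    (Equiv.sum_comp (MulAction.toPerm g : Equiv.Perm (G ⧸ H)) (fun q : G ⧸ H =>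
      χ (s q) • P (D.rc j (s q)))).symm
  conv_rhs => rw [sub_eq_add_neg]; arg 2; rw [e1]
  rw [← sub_eq_add_neg, map_sum, smul_sum, ← sum_sub_distrib]
  unfold cor
  rw [map_sum]
  refine sum_congr rfl fun q _ => ?_
  rw [map_zsmul, ← D.st_r, hP τ (D.rc j (s q)) (D.rc j (s (g • q))) _ (mem_H hs g q), smul_sub]
  · congr 1
    rw [map_zsmul, smul_smul, chi_s hs hχ g q]
  · rw [D.comm, e, ← D.rc_mul, ← D.rc_mul]
    congr 1
    group

end loc

end Pool.Agent.TH841.NF
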