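import Mathlib
import Pool.Agent.TH841.NF.Cor
import Pool.Agent.TH841.NF.Conc

/-!
# Quadratic characters and the local data
-/

set_option autoImplicit false

attribute [-instance] DivisionRing.toRatAlgebra

namespace Pool.Agent.TH841.NF

open WeierstrassCurve

open Pool.Agent.TH841.SH.D (Pt act Gal Coch IsCoc IsCob LocTriv)

/-- the algebraic closure of `ℚ` -/
abbrev Qb : Type := AlgebraicClosure ℚ

lemma act_act {k : Type} [Field k] (W : WeierstrassCurve k) {F L L' : Type} [Field F] [Field L]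
    [Field L'] [Algebra k F] [Algebra k L] [Algebra k L'] (ψ : L →ₐ[k] L') (φ : F →ₐ[k] L)
    (P : Pt W F) : act W ψ (act W φ P) = act W (ψ.comp φ) P := by
  rcases P with _ | ⟨x, y, h⟩
  · rfl
  · rfl

lemma act_id {k : Type} [Field k] (W : WeierstrassCurve k) {F : Type} [Field F]
    [Algebra k F] (φ : F →ₐ[k] F) (hφ : ∀ x, φ x = x) (P : Pt W F) : act W φ P = P := by
  rcases P with _ | ⟨x, y, h⟩
  · rfl
  · exact pt_ext _ _ (hφ _) (hφ _)

/-- the Galois action on the points over the algebraic closure of `K` -/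
noncomputable def aL {k : Type} [Field k] (W : WeierstrassCurve k) (K : Type) [Field K]
    [Algebra k K] : Gal K →* AddMonoid.End (Pt W (AlgebraicClosure K)) where
  toFun τ := act W (τ.toAlgHom.restrictScalars k)
  map_one' := by
    refine AddMonoidHom.ext fun P => ?_
    exact act_id W ((1 : Gal K).toAlgHom.restrictScalars k) (fun x => rfl) P
  map_mul' σ τ := by
    refine AddMonoidHom.ext fun P => ?_
    exact (act_act W (σ.toAlgHom.restrictScalars k) (τ.toAlgHom.restrictScalars k) P).symm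

/-- the Galois action on the points over the algebraic closure of `ℚ` -/
noncomputable def aG (E : WeierstrassCurve ℚ) : Gal ℚ →* AddMonoid.End (Pt E Qb) where
  toFun τ := act E τ.toAlgHom
  map_one' := by
    refine AddMonoidHom.ext fun P => ?_
    exact act_id E (1 : Gal ℚ).toAlgHom (fun x => rfl) P
  map_mul' σ τ := by
    refine AddMonoidHom.ext fun P => ?_
    exact (act_act E σ.toAlgHom τ.toAlgHom P).symm

/-- the local data -/
noncomputable def locD (E : WeierstrassCurve ℚ) (K : Type) [Field K] [Algebra ℚ K] :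
    Loc (Gal ℚ) (Pt E Qb) (Qb →ₐ[ℚ] AlgebraicClosure K) (Gal K) (Pt E (AlgebraicClosure K)) where
  a := aG E
  b := aL E K
  lc τ j := (τ.toAlgHom.restrictScalars ℚ).comp j
  rc j g := j.comp g.toAlgHom
  st j := act E j
  lc_mul _ _ _ := rfl
  lc_one _ := rfl
  rc_mul _ _ _ := rfl
  rc_one _ := rfl
  comm _ _ _ := rfl
  st_l _ _ x := (act_act E _ _ x).symm
  st_r _ _ x := (act_act E _ _ x).symm

section chi

variable {d : ℚ} {ρ : Qb} (hρ : ρ ^ 2 = algebraMap ℚ Qb d) (h0 : ρ ≠ 0)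

include hρ in
lemma pm (σ : Gal ℚ) : σ ρ = ρ ∨ σ ρ = -ρ := by
  have h1 : σ (algebraMap ℚ Qb d) = algebraMap ℚ Qb d := AlgEquiv.commutes σ d
  have h : (σ ρ) ^ 2 = ρ ^ 2 := by rw [← map_pow, hρ, h1]
  exact sq_eq_sq_iff_eq_or_eq_neg.1 h

open Classical in
/-- the sign -/
noncomputable def sg (ρ : Qb) (σ : Gal ℚ) : ℤˣ := if σ ρ = ρ then 1 else -1

lemma sg_pos {σ : Gal ℚ} (h : σ ρ = ρ) : sg ρ σ = 1 := if_pos h

include h0 in
lemma sg_neg {σ : Gal ℚ} (h : σ ρ = -ρ) : sg ρ σ = -1 := by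
  apply if_neg
  intro h'
  apply h0
  have : (2 : Qb) * ρ = 0 := by linear_combination (h - h')
  exact (mul_eq_zero.1 this).resolve_left two_ne_zero

/-- the quadratic character of `ℚ(ρ)` -/
noncomputable def chi : Gal ℚ →* ℤˣ where
  toFun σ := sg ρ σ
  map_one' := sg_pos rfl
  map_mul' σ τ := by
    have e : (σ * τ) ρ = σ (τ ρ) := rfl
    rcases pm hρ σ with h1 | h1 <;> rcases pm hρ τ with h2 | h2
    · rw [sg_pos h1, sg_pos h2, sg_pos (by rw [e, h2, h1]), one_mul]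
    · rw [sg_pos h1, sg_neg h0 h2, sg_neg h0 (by rw [e, h2, map_neg, h1]), one_mul]
    · rw [sg_neg h0 h1, sg_pos h2, sg_neg h0 (by rw [e, h2, h1]), mul_one]
    · rw [sg_neg h0 h1, sg_neg h0 h2, sg_pos (by rw [e, h2, map_neg, h1, neg_neg])]
      rfl

lemma chi_spec (σ : Gal ℚ) : σ ρ = (((chi hρ h0 σ : ℤˣ) : ℤ) : Qb) * ρ := by
  change σ ρ = (((sg ρ σ : ℤˣ) : ℤ) : Qb) * ρ
  rcases pm hρ σ with h1 | h1
  · rw [sg_pos h1, h1]; simp
  · rw [sg_neg h0 h1, h1]; simp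

lemma chi_one_iff (σ : Gal ℚ) : chi hρ h0 σ = 1 ↔ σ ρ = ρ := by
  change sg ρ σ = 1 ↔ _
  constructor
  · intro h
    rcases pm hρ σ with h1 | h1
    · exact h1
    · rw [sg_neg h0 h1] at h
      exact absurd h (by decide)
  · intro h
    exact sg_pos h

end chi

section chis

variable {s : ℕ} {d : Fin s → ℚ} {ρ : Fin s → Qb} (hρ : ∀ i, ρ i ^ 2 = algebraMap ℚ Qb (d i))
  (h0 : ∀ i, ρ i ≠ 0)

/-- the character of `∏ i ∈ T, ρ i` -/
noncomputable def chT (T : Finset (Fin s)) : Gal ℚ →* ℤ :=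
  (Units.coeHom ℤ).comp (∏ i ∈ T, chi (hρ i) (h0 i))

lemma chT_apply (T : Finset (Fin s)) (σ : Gal ℚ) :
    chT hρ h0 T σ = ∏ i ∈ T, ((chi (hρ i) (h0 i) σ : ℤˣ) : ℤ) := by
  unfold chT
  rw [MonoidHom.comp_apply, MonoidHom.finsetProd_apply, map_prod]
  rfl

lemma chT_spec (T : Finset (Fin s)) (σ : Gal ℚ) :
    σ (∏ i ∈ T, ρ i) = ((chT hρ h0 T σ : ℤ) : Qb) * ∏ i ∈ T, ρ i := by
  rw [chT_apply, map_prod, Int.cast_prod, ← Finset.prod_mul_distrib]
  exact Finset.prod_congr rfl fun i _ => chi_spec (hρ i) (h0 i) σ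

/-- the subgroup -/
noncomputable def Hs : Subgroup (Gal ℚ) := ⨅ i, (chi (hρ i) (h0 i)).ker

lemma mem_Hs (σ : Gal ℚ) : σ ∈ Hs hρ h0 ↔ ∀ i, σ (ρ i) = ρ i := by
  unfold Hs
  rw [Subgroup.mem_iInf]
  exact forall_congr' fun i => (MonoidHom.mem_ker).trans (chi_one_iff (hρ i) (h0 i) σ)

instance Hs_normal : (Hs hρ h0).Normal := by
  unfold Hs
  exact Subgroup.normal_iInf_normal fun i => inferInstance

instance Hs_fin : (Hs hρ h0).FiniteIndex := by
  unfold Hs
  have : ∀ i, (chi (hρ i) (h0 i)).ker.FiniteIndex := fun i => inferInstance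
  exact Subgroup.finiteIndex_iInf this

noncomputable instance : Fintype (Gal ℚ ⧸ Hs hρ h0) := Subgroup.fintypeQuotientOfFiniteIndex

lemma chT_H (T : Finset (Fin s)) : ∀ h ∈ Hs hρ h0, chT hρ h0 T h = 1 := by
  intro h hh
  rw [chT_apply]
  refine Finset.prod_eq_one fun i _ => ?_
  have h1 := (chi_one_iff (hρ i) (h0 i) h).2 ((mem_Hs hρ h0 h).1 hh i)
  rw [h1]
  rfl

lemma sum_chT (σ : Gal ℚ) : ∑ T : Finset (Fin s), chT hρ h0 T σ =
    ∏ i, (1 + ((chi (hρ i) (h0 i) σ : ℤˣ) : ℤ)) := by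
  rw [Finset.prod_one_add]
  exact Finset.sum_congr (Finset.powerset_univ).symm fun T _ => chT_apply hρ h0 T σ

lemma sum_chT_H : ∀ h ∈ Hs hρ h0, ∑ T : Finset (Fin s), chT hρ h0 T h = 2 ^ s := by
  intro h hh
  rw [sum_chT]
  have : ∀ i : Fin s, (1 + ((chi (hρ i) (h0 i) h : ℤˣ) : ℤ)) = 2 := by
    intro i
    rw [(chi_one_iff (hρ i) (h0 i) h).2 ((mem_Hs hρ h0 h).1 hh i)]
    rfl
  simp only [this, Finset.prod_const, Finset.card_univ, Fintype.card_fin]

lemma sum_chT_not : ∀ g, g ∉ Hs hρ h0 → ∑ T : Finset (Fin s), chT hρ h0 T g = 0 := by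
  intro g hg
  rw [mem_Hs, not_forall] at hg
  obtain ⟨i, hi⟩ := hg
  rw [sum_chT]
  apply Finset.prod_eq_zero (Finset.mem_univ i)
  have h1 : chi (hρ i) (h0 i) g ≠ 1 := fun h => hi ((chi_one_iff (hρ i) (h0 i) g).1 h)
  rw [(Int.units_eq_one_or _).resolve_left h1]
  rfl

end chis

end Pool.Agent.TH841.NF
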