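import Mathlib
import Pool.Agent.TH841.NF.Chi

/-!
# The corestriction maps to the Tate-Shafarevich groups of the twists
-/

set_option autoImplicit false

attribute [-instance] DivisionRing.toRatAlgebra

namespace Pool.Agent.TH841.NF

open WeierstrassCurve

open Pool.Agent.TH841.SH.D (Pt act Gal Coch IsCoc IsCob LocTriv)

/-- the twist -/
def tw (d : ℚ) (E : WeierstrassCurve ℚ) : WeierstrassCurve ℚ :=
  ⟨0, d * E.a₂, 0, d ^ 2 * E.a₄, d ^ 3 * E.a₆⟩

section sc

variable {F : Type} [Field F] [Algebra ℚ F] {E : WeierstrassCurve ℚ} {W : WeierstrassCurve F}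
  (hW : Sc (algebraMap ℚ F) 1 E W) (E1 : E.a₁ = 0) (E3 : E.a₃ = 0)

lemma rat_hom {L : Type} [Field L] [Algebra ℚ L] (ψ : ℚ →+* L) (x : ℚ) :
    ψ x = algebraMap ℚ L x := DFunLike.congr_fun (Subsingleton.elim ψ (algebraMap ℚ L)) x

include hW in
lemma sc_any {L L' : Type} [Field L] [Algebra F L] [Field L'] [Algebra ℚ L'] (φ : L →+* L') :
    Sc φ 1 (W.baseChange L) (E.baseChange L') := by
  have key : ∀ x : ℚ, algebraMap ℚ L' x = φ (algebraMap F L (algebraMap ℚ F x)) := fun x =>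
    (rat_hom ((φ.comp (algebraMap F L)).comp (algebraMap ℚ F)) x).symm
  refine ⟨one_ne_zero, ?_, ?_, ?_, ?_, ?_⟩
  · change algebraMap ℚ L' E.a₁ = φ (algebraMap F L W.a₁) * 1
    rw [key, hW.h1, mul_one, mul_one]
  · change algebraMap ℚ L' E.a₂ = φ (algebraMap F L W.a₂) * 1 ^ 2
    rw [key, hW.h2, one_pow, one_pow, mul_one, mul_one]
  · change algebraMap ℚ L' E.a₃ = φ (algebraMap F L W.a₃) * 1 ^ 3
    rw [key, hW.h3, one_pow, one_pow, mul_one, mul_one]
  · change algebraMap ℚ L' E.a₄ = φ (algebraMap F L W.a₄) * 1 ^ 4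
    rw [key, hW.h4, one_pow, one_pow, mul_one, mul_one]
  · change algebraMap ℚ L' E.a₆ = φ (algebraMap F L W.a₆) * 1 ^ 6
    rw [key, hW.h6, one_pow, one_pow, mul_one, mul_one]

include E1 E3 in
/-- the scaling map to the twist -/
lemma sc_tw {L L' : Type} [Field L] [Algebra ℚ L] [Field L'] [Algebra ℚ L'] (φ : L →+* L')
    {d : ℚ} {u : L'} (hu : u ^ 2 = algebraMap ℚ L' d) (h0 : u ≠ 0) :
    Sc φ u (E.baseChange L) ((tw d E).baseChange L') := by
  have key : ∀ x : ℚ, algebraMap ℚ L' x = φ (algebraMap ℚ L x) := fun x =>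
    (rat_hom (φ.comp (algebraMap ℚ L)) x).symm
  refine ⟨h0, ?_, ?_, ?_, ?_, ?_⟩
  · change algebraMap ℚ L' 0 = φ (algebraMap ℚ L E.a₁) * u
    rw [E1, map_zero, map_zero, map_zero, zero_mul]
  · change algebraMap ℚ L' (d * E.a₂) = φ (algebraMap ℚ L E.a₂) * u ^ 2
    rw [map_mul, ← key, ← hu]; ring
  · change algebraMap ℚ L' 0 = φ (algebraMap ℚ L E.a₃) * u ^ 3
    rw [E3, map_zero, map_zero, map_zero, zero_mul]
  · change algebraMap ℚ L' (d ^ 2 * E.a₄) = φ (algebraMap ℚ L E.a₄) * u ^ 4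
    rw [map_mul, ← key, map_pow, ← hu]; ring
  · change algebraMap ℚ L' (d ^ 3 * E.a₆) = φ (algebraMap ℚ L E.a₆) * u ^ 6
    rw [map_mul, ← key, map_pow, ← hu]; ring

include E1 E3 in
/-- the inverse -/
lemma sc_tw' {L L' : Type} [Field L] [Algebra ℚ L] [Field L'] [Algebra ℚ L'] (φ : L →+* L')
    {d : ℚ} {u : L'} (hu : u ^ 2 = algebraMap ℚ L' d) (h0 : u ≠ 0) :
    Sc φ u⁻¹ ((tw d E).baseChange L) (E.baseChange L') := by
  have key : ∀ x : ℚ, algebraMap ℚ L' x = φ (algebraMap ℚ L x) := fun x =>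
    (rat_hom (φ.comp (algebraMap ℚ L)) x).symm
  refine ⟨inv_ne_zero h0, ?_, ?_, ?_, ?_, ?_⟩
  · change algebraMap ℚ L' E.a₁ = φ (algebraMap ℚ L 0) * u⁻¹
    rw [E1, map_zero, map_zero, map_zero, zero_mul]
  · change algebraMap ℚ L' E.a₂ = φ (algebraMap ℚ L (d * E.a₂)) * u⁻¹ ^ 2
    rw [← key, map_mul, ← hu]; field_simp
  · change algebraMap ℚ L' E.a₃ = φ (algebraMap ℚ L 0) * u⁻¹ ^ 3
    rw [E3, map_zero, map_zero, map_zero, zero_mul]
  · change algebraMap ℚ L' E.a₄ = φ (algebraMap ℚ L (d ^ 2 * E.a₄)) * u⁻¹ ^ 4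
    rw [← key, map_mul, map_pow, ← hu]; field_simp
  · change algebraMap ℚ L' E.a₆ = φ (algebraMap ℚ L (d ^ 3 * E.a₆)) * u⁻¹ ^ 6
    rw [← key, map_mul, map_pow, ← hu]; field_simp

include hW in
/-- from the curve over `ℚ` to the curve over `F` -/
lemma sc_any' {L L' : Type} [Field L] [Algebra F L] [Field L'] [Algebra ℚ L'] (φ : L' →+* L) :
    Sc φ 1 (E.baseChange L') (W.baseChange L) := by
  have key : ∀ x : ℚ, φ (algebraMap ℚ L' x) = algebraMap F L (algebraMap ℚ F x) := fun x =>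
    DFunLike.congr_fun (Subsingleton.elim (φ.comp (algebraMap ℚ L'))
      ((algebraMap F L).comp (algebraMap ℚ F))) x
  refine ⟨one_ne_zero, ?_, ?_, ?_, ?_, ?_⟩
  · change algebraMap F L W.a₁ = φ (algebraMap ℚ L' E.a₁) * 1
    rw [key, hW.h1, mul_one, mul_one]
  · change algebraMap F L W.a₂ = φ (algebraMap ℚ L' E.a₂) * 1 ^ 2
    rw [key, hW.h2, one_pow, one_pow, mul_one, mul_one]
  · change algebraMap F L W.a₃ = φ (algebraMap ℚ L' E.a₃) * 1 ^ 3
    rw [key, hW.h3, one_pow, one_pow, mul_one, mul_one]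
  · change algebraMap F L W.a₄ = φ (algebraMap ℚ L' E.a₄) * 1 ^ 4
    rw [key, hW.h4, one_pow, one_pow, mul_one, mul_one]
  · change algebraMap F L W.a₆ = φ (algebraMap ℚ L' E.a₆) * 1 ^ 6
    rw [key, hW.h6, one_pow, one_pow, mul_one, mul_one]

end sc

section transfer

variable {F : Type} [Field F] [Algebra ℚ F] {E : WeierstrassCurve ℚ} {W : WeierstrassCurve F}
  (hW : Sc (algebraMap ℚ F) 1 E W) (e : AlgebraicClosure F ≃+* Qb)

/-- `g` fixes the elements of `F` -/
def Fx (g : Gal ℚ) : Prop :=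
  ∀ x : F, g (e (algebraMap F (AlgebraicClosure F) x)) = e (algebraMap F (AlgebraicClosure F) x)

open Classical in
/-- the automorphism of the algebraic closure of `F` -/
noncomputable def cF (g : Gal ℚ) : Gal F :=
  if h : Fx e g then
    { toFun := fun x => e.symm (g (e x))
      invFun := fun x => e.symm (g.symm (e x))
      left_inv := fun x => by simp
      right_inv := fun x => by simp
      map_mul' := fun x y => by simp
      map_add' := fun x y => by simp
      commutes' := fun x => by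
        change e.symm (g (e (algebraMap F (AlgebraicClosure F) x))) = _
        rw [h x, RingEquiv.symm_apply_apply] }
  else 1

omit [Algebra ℚ F] in
lemma cF_apply {g : Gal ℚ} (h : Fx e g) (x : AlgebraicClosure F) :
    cF e g x = e.symm (g (e x)) := by
  unfold cF
  rw [dif_pos h]
  rfl

omit [Algebra ℚ F] in
lemma e_cF {g : Gal ℚ} (h : Fx e g) (x : AlgebraicClosure F) :
    e (cF e g x) = g (e x) := by
  rw [cF_apply e h, RingEquiv.apply_symm_apply]

lemma cF_mul {g g' : Gal ℚ} (h : Fx e g) (h' : Fx e g') : cF e (g * g') = cF e g * cF e g' := by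
  have h2 : Fx e (g * g') := fun x => by
    change g (g' _) = _
    rw [h' x, h x]
  refine AlgEquiv.ext fun x => ?_
  change cF e (g * g') x = cF e g (cF e g' x)
  apply e.injective
  rw [e_cF e h2, e_cF e h, e_cF e h']
  rfl

/-- the automorphism of the algebraic closure of `ℚ` -/
noncomputable def cQ (σ : Gal F) : Gal ℚ where
  toFun x := e (σ (e.symm x))
  invFun x := e (σ.symm (e.symm x))
  left_inv x := by simp
  right_inv x := by simp
  map_mul' x y := by simp
  map_add' x y := by simp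
  commutes' x := by
    have h : (((e : AlgebraicClosure F →+* Qb).comp (σ : AlgebraicClosure F →+*
        AlgebraicClosure F)).comp (e.symm : Qb →+* AlgebraicClosure F)).comp (algebraMap ℚ Qb) =
        algebraMap ℚ Qb := Subsingleton.elim _ _
    exact DFunLike.congr_fun h x

omit [Algebra ℚ F] in
lemma cQ_fx (σ : Gal F) : Fx e (cQ e σ) := by
  intro x
  change e (σ (e.symm (e _))) = _
  rw [RingEquiv.symm_apply_apply, AlgEquiv.commutes]

lemma cF_cQ (σ : Gal F) : cF e (cQ e σ) = σ := by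
  refine AlgEquiv.ext fun x => ?_
  apply e.injective
  rw [e_cF e (cQ_fx e σ)]
  change e (σ (e.symm (e _))) = _
  rw [RingEquiv.symm_apply_apply]

/-- the transported cochain -/
noncomputable def tr (f : Coch W) (g : Gal ℚ) : Pt E Qb :=
  tm (sc_any hW (e : AlgebraicClosure F →+* Qb)) (f (cF e g))

lemma tr_act {g : Gal ℚ} (h : Fx e g) (P : Pt W (AlgebraicClosure F)) :
    tm (sc_any hW (e : AlgebraicClosure F →+* Qb)) (act W (cF e g).toAlgHom P) =
      act E g.toAlgHom (tm (sc_any hW (e : AlgebraicClosure F →+* Qb)) P) := by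
  rw [act_tm _ _ (sc_any hW (((g : Qb ≃+* Qb) : Qb →+* Qb).comp
    (e : AlgebraicClosure F →+* Qb))), tm_act _ _ (sc_any hW (((g : Qb ≃+* Qb) : Qb →+* Qb).comp
    (e : AlgebraicClosure F →+* Qb)))]
  · intro x
    rfl
  · rw [map_one]
  · intro x
    exact e_cF e h x

lemma tr_coc {f : Coch W} (hf : IsCoc W f) {x y : Gal ℚ} (hx : Fx e x) (hy : Fx e y) :
    tr hW e f (x * y) = tr hW e f x + aG E x (tr hW e f y) := by
  unfold tr
  rw [cF_mul e hx hy, hf.2, map_add, tr_act hW e hx]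
  rfl

lemma tr_cob {f : Coch W} {P : Pt W (AlgebraicClosure F)}
    (hf : ∀ σ : Gal F, f σ = act W σ.toAlgHom P - P) {x : Gal ℚ} (hx : Fx e x) :
    tr hW e f x = aG E x (tm (sc_any hW (e : AlgebraicClosure F →+* Qb)) P) -
      tm (sc_any hW (e : AlgebraicClosure F →+* Qb)) P := by
  unfold tr
  rw [hf, map_sub, tr_act hW e hx]
  rfl

lemma tr_add (f f' : Coch W) : tr hW e (f + f') = tr hW e f + tr hW e f' := by
  funext g
  exact map_add _ _ _

end transfer

end Pool.Agent.TH841.NF
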