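import Mathlib
import Pool.Agent.TH841.NF.Theta

/-!
# The corestriction maps to the Tate-Shafarevich groups of the twists, II
-/

set_option autoImplicit false

attribute [-instance] DivisionRing.toRatAlgebra

namespace Pool.Agent.TH841.NF

open WeierstrassCurve

open Pool.Agent.TH841.SH.D (Pt act Gal Coch IsCoc IsCob LocTriv cob)

lemma base_a1 {E : WeierstrassCurve ℚ} {d : ℚ} {L : Type} [Field L] [Algebra ℚ L] :
    ((tw d E).baseChange L).a₁ = 0 := by
  change algebraMap ℚ L 0 = 0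
  rw [map_zero]

lemma base_a3 {E : WeierstrassCurve ℚ} {d : ℚ} {L : Type} [Field L] [Algebra ℚ L] :
    ((tw d E).baseChange L).a₃ = 0 := by
  change algebraMap ℚ L 0 = 0
  rw [map_zero]

/-- the scaling and the action -/
lemma tw_act {E : WeierstrassCurve ℚ} {L : Type} [Field L] [Algebra ℚ L] {d : ℚ} {ρ : L}
    (S : Sc (RingHom.id L) ρ (E.baseChange L) ((tw d E).baseChange L)) (τ : L →ₐ[ℚ] L) (c : ℤ)
    (hc : c = 1 ∨ c = -1) (hτ : τ ρ = (c : L) * ρ) (P : Pt E L) :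
    tm S (c • act E τ P) = act (tw d E) τ (tm S P) := by
  rcases hc with rfl | rfl
  · rw [Int.cast_one, one_mul] at hτ
    have S' : Sc (τ : L →+* L) ρ (E.baseChange L) ((tw d E).baseChange L) := by
      have := S
      refine ⟨S.hu, ?_, ?_, ?_, ?_, ?_⟩
      · rw [S.h1]
        exact congrArg (· * ρ) (AlgHom.commutes τ _).symm
      · rw [S.h2]
        exact congrArg (· * ρ ^ 2) (AlgHom.commutes τ _).symm
      · rw [S.h3]
        exact congrArg (· * ρ ^ 3) (AlgHom.commutes τ _).symm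
      · rw [S.h4]
        exact congrArg (· * ρ ^ 4) (AlgHom.commutes τ _).symm
      · rw [S.h6]
        exact congrArg (· * ρ ^ 6) (AlgHom.commutes τ _).symm
    rw [one_smul, tm_act S τ S' (fun x => rfl) hτ.symm P]
    exact act_tm τ S S' (fun x => rfl) P
  · have hτ' : τ ρ = -ρ := by rw [hτ]; push_cast; ring
    have S' : Sc (τ : L →+* L) ρ (E.baseChange L) ((tw d E).baseChange L) := by
      refine ⟨S.hu, ?_, ?_, ?_, ?_, ?_⟩
      · rw [S.h1]
        exact congrArg (· * ρ) (AlgHom.commutes τ _).symm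
      · rw [S.h2]
        exact congrArg (· * ρ ^ 2) (AlgHom.commutes τ _).symm
      · rw [S.h3]
        exact congrArg (· * ρ ^ 3) (AlgHom.commutes τ _).symm
      · rw [S.h4]
        exact congrArg (· * ρ ^ 4) (AlgHom.commutes τ _).symm
      · rw [S.h6]
        exact congrArg (· * ρ ^ 6) (AlgHom.commutes τ _).symm
    have S'' : Sc (τ : L →+* L) (-ρ) (E.baseChange L) ((tw d E).baseChange L) := by
      have h1 := base_a1 (E := E) (d := d) (L := L)
      have h3 := base_a3 (E := E) (d := d) (L := L)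
      have g1 := S'.h1
      have g3 := S'.h3
      rw [h1] at g1
      rw [h3] at g3
      refine ⟨neg_ne_zero.2 S.hu, ?_, ?_, ?_, ?_, ?_⟩
      · rw [h1, mul_neg, ← g1, neg_zero]
      · rw [S'.h2]; ring
      · rw [h3]
        linear_combination -g3
      · rw [S'.h4]; ring
      · rw [S'.h6]; ring
    rw [tm_act S τ S'' (fun x => rfl) hτ'.symm P,
      tm_neg S'' S' (fun x => rfl) rfl base_a1 base_a3 P, neg_smul, one_smul, map_neg]
    exact congrArg Neg.neg (act_tm τ S S' (fun x => rfl) P)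

lemma prod_sq {s : ℕ} {L : Type} [Field L] [Algebra ℚ L] {d : Fin s → ℚ} {ρ : Fin s → L}
    (hρ : ∀ i, ρ i ^ 2 = algebraMap ℚ L (d i)) (T : Finset (Fin s)) :
    (∏ i ∈ T, ρ i) ^ 2 = algebraMap ℚ L (∏ i ∈ T, d i) := by
  rw [← Finset.prod_pow, map_prod]
  exact Finset.prod_congr rfl fun i _ => hρ i

lemma chT_pm {s : ℕ} {d : Fin s → ℚ} {ρ : Fin s → Qb}
    (hρ : ∀ i, ρ i ^ 2 = algebraMap ℚ Qb (d i)) (h0 : ∀ i, ρ i ≠ 0) (T : Finset (Fin s))
    (σ : Gal ℚ) : chT hρ h0 T σ = 1 ∨ chT hρ h0 T σ = -1 := by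
  have h : chT hρ h0 T σ = (((∏ i ∈ T, chi (hρ i) (h0 i)) σ : ℤˣ) : ℤ) := rfl
  rw [h]
  exact Int.isUnit_iff.1 (Units.isUnit _)

section theta

variable {F : Type} [Field F] [Algebra ℚ F] {E : WeierstrassCurve ℚ} {W : WeierstrassCurve F}
  (hW : Sc (algebraMap ℚ F) 1 E W) (E1 : E.a₁ = 0) (E3 : E.a₃ = 0)
  (e : AlgebraicClosure F ≃+* Qb)
  {n : ℕ} {r : Fin n → F} {d : Fin n → ℚ} (hr : ∀ i, r i ^ 2 = algebraMap ℚ F (d i))
  (hd : ∀ i, d i ≠ 0) (hgen : IntermediateField.adjoin ℚ (Set.range r) = ⊤)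

/-- the square roots -/
noncomputable def rh (e : AlgebraicClosure F ≃+* Qb) (r : Fin n → F) (i : Fin n) : Qb :=
  e (algebraMap F (AlgebraicClosure F) (r i))

include hr in
lemma rh_sq (i : Fin n) : rh e r i ^ 2 = algebraMap ℚ Qb (d i) := by
  unfold rh
  rw [← map_pow, ← map_pow, hr]
  exact rat_hom (((e : AlgebraicClosure F →+* Qb).comp
    (algebraMap F (AlgebraicClosure F))).comp (algebraMap ℚ F)) (d i)

include hr hd in
lemma rh_ne (i : Fin n) : rh e r i ≠ 0 := by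
  intro h
  have := rh_sq e hr i
  rw [h, zero_pow two_ne_zero, eq_comm, map_eq_zero] at this
  exact hd i this

/-- the subgroup -/
noncomputable abbrev HH : Subgroup (Gal ℚ) := Hs (rh_sq e hr) (rh_ne e hr hd)

include hgen in
lemma mem_HH (g : Gal ℚ) : g ∈ HH e hr hd ↔ Fx e g := by
  rw [mem_Hs]
  constructor
  · intro h x
    have hx : x ∈ IntermediateField.adjoin ℚ (Set.range r) := by
      rw [hgen]; trivial
    induction hx using IntermediateField.adjoin_induction with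
    | mem y hy =>
      obtain ⟨i, rfl⟩ := hy
      exact h i
    | algebraMap y =>
      have : e (algebraMap F (AlgebraicClosure F) (algebraMap ℚ F y)) = algebraMap ℚ Qb y :=
        rat_hom (((e : AlgebraicClosure F →+* Qb).comp
          (algebraMap F (AlgebraicClosure F))).comp (algebraMap ℚ F)) y
      rw [this]
      exact AlgEquiv.commutes g y
    | add y z _ _ hy hz => rw [map_add, map_add, map_add, hy, hz]
    | mul y z _ _ hy hz => rw [map_mul, map_mul, map_mul, hy, hz]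
    | inv y _ hy => rw [map_inv₀, map_inv₀, map_inv₀, hy]
  · intro h i
    exact h (r i)

/-- the section -/
noncomputable def sec {G : Type} [Group G] (H : Subgroup G) (q : G ⧸ H) : G :=
  (open Classical in if q = ((1 : G) : G ⧸ H) then 1 else Quotient.out q)

lemma sec_spec {G : Type} [Group G] (H : Subgroup G) (q : G ⧸ H) :
    ((sec H q : G) : G ⧸ H) = q := by
  unfold sec
  split_ifs with h
  · exact h.symm
  · exact Quotient.out_eq q

lemma sec_one {G : Type} [Group G] (H : Subgroup G) : sec H ((1 : G) : G ⧸ H) = 1 := by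
  unfold sec
  rw [if_pos rfl]

/-- the corestriction to the twist -/
noncomputable def Th (T : Finset (Fin n)) (f : Coch W) : Coch (tw (∏ i ∈ T, d i) E) := fun σ =>
  tm (sc_tw E1 E3 (RingHom.id Qb) (prod_sq (rh_sq e hr) T)
    (Finset.prod_ne_zero_iff.2 fun i _ => rh_ne e hr hd i))
    (cor (sec (HH e hr hd)) (aG E) (chT (rh_sq e hr) (rh_ne e hr hd) T) (tr hW e f) σ)

include hgen in
lemma tr_coc' {f : Coch W} (hf : IsCoc W f) : ∀ x ∈ HH e hr hd, ∀ y ∈ HH e hr hd,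
    tr hW e f (x * y) = tr hW e f x + aG E x (tr hW e f y) := fun x hx y hy =>
  tr_coc hW e hf ((mem_HH e hr hd hgen x).1 hx) ((mem_HH e hr hd hgen y).1 hy)

include hgen in
lemma Th_mul {T : Finset (Fin n)} {f : Coch W} (hf : IsCoc W f) (σ τ : Gal ℚ) :
    Th hW E1 E3 e hr hd T f (σ * τ) = Th hW E1 E3 e hr hd T f σ +
      act (tw (∏ i ∈ T, d i) E) σ.toAlgHom (Th hW E1 E3 e hr hd T f τ) := by
  unfold Th
  rw [cor_coc (sec_spec _) (aG E) (chT_H _ _ T) (tr_coc' hW e hr hd hgen hf), map_add]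
  congr 1
  exact tw_act _ σ.toAlgHom _ (chT_pm _ _ T σ) (chT_spec _ _ T σ) _

include hgen in
lemma Th_coc {T : Finset (Fin n)} {f : Coch W} (hf : IsCoc W f) :
    IsCoc (tw (∏ i ∈ T, d i) E) (Th hW E1 E3 e hr hd T f) := by
  classical
  obtain ⟨S, hS⟩ := coc_fin hf
  refine coc_of_fin (Th_mul hW E1 E3 e hr hd hgen hf)
    (Finset.univ.biUnion fun q : Gal ℚ ⧸ HH e hr hd =>
      (S.image fun x => sec _ q (e x)) ∪ Finset.univ.image fun i => sec _ q (rh e r i)) ?_
  intro σ hσ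
  have h1 : ∀ q : Gal ℚ ⧸ HH e hr hd, ∀ x ∈ S, σ (sec _ q (e x)) = sec _ q (e x) := by
    intro q x hx
    apply hσ
    rw [Finset.mem_biUnion]
    exact ⟨q, Finset.mem_univ _, Finset.mem_union_left _ (Finset.mem_image_of_mem _ hx)⟩
  have h2 : ∀ q : Gal ℚ ⧸ HH e hr hd, ∀ i, σ (sec _ q (rh e r i)) = sec _ q (rh e r i) := by
    intro q i
    apply hσ
    rw [Finset.mem_biUnion]
    exact ⟨q, Finset.mem_univ _, Finset.mem_union_right _
      (Finset.mem_image_of_mem _ (Finset.mem_univ i))⟩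
  have h3 : ∀ q : Gal ℚ ⧸ HH e hr hd, (sec _ q)⁻¹ * σ * sec _ q ∈ HH e hr hd := by
    intro q
    rw [mem_Hs]
    intro i
    change (sec _ q)⁻¹ (σ (sec _ q (rh e r i))) = rh e r i
    rw [h2 q i]
    exact AlgEquiv.symm_apply_apply (sec _ q) _
  have h4 : ∀ q : Gal ℚ ⧸ HH e hr hd, σ • q = q := by
    intro q
    have h5 := h3 q
    rw [mul_assoc, ← QuotientGroup.eq] at h5
    conv_lhs => rw [← sec_spec _ q]
    exact h5.symm.trans (sec_spec _ q)
  unfold Th
  rw [cor_zero_of, map_zero]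
  intro q
  rw [h4]
  unfold tr
  rw [hS, map_zero]
  intro x hx
  rw [cF_apply e ((mem_HH e hr hd hgen _).1 (h3 q))]
  change e.symm ((sec _ q)⁻¹ (σ (sec _ q (e x)))) = x
  rw [h1 q x hx]
  have : (sec _ q)⁻¹ (sec _ q (e x)) = e x := AlgEquiv.symm_apply_apply (sec _ q) _
  rw [this, RingEquiv.symm_apply_apply]

include hgen in
lemma Th_cob {T : Finset (Fin n)} {f : Coch W} (hf : IsCob W f) :
    IsCob (tw (∏ i ∈ T, d i) E) (Th hW E1 E3 e hr hd T f) := by
  obtain ⟨P, hP⟩ := hf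
  refine ⟨tm (sc_tw E1 E3 (RingHom.id Qb) (prod_sq (rh_sq e hr) T)
    (Finset.prod_ne_zero_iff.2 fun i _ => rh_ne e hr hd i)) (∑ q : Gal ℚ ⧸ HH e hr hd,
      chT (rh_sq e hr) (rh_ne e hr hd) T (sec _ q) • aG E (sec _ q)
        (tm (sc_any hW (e : AlgebraicClosure F →+* Qb)) P)), fun σ => ?_⟩
  unfold Th
  rw [cor_cob (sec_spec _) (aG E) (chT_H _ _ T) _ (fun x hx => tr_cob hW e hP
    ((mem_HH e hr hd hgen x).1 hx)), map_sub]
  congr 1
  exact tw_act _ σ.toAlgHom _ (chT_pm _ _ T σ) (chT_spec _ _ T σ) _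

lemma Th_add (T : Finset (Fin n)) (f f' : Coch W) :
    Th hW E1 E3 e hr hd T (f + f') = Th hW E1 E3 e hr hd T f + Th hW E1 E3 e hr hd T f' := by
  funext σ
  change tm _ (cor _ _ _ (tr hW e (f + f')) σ) = tm _ _ + tm _ _
  rw [tr_add, cor_add, map_add]

/-- the local condition for embeddings -/
def Emb (K : Type) [Field K] [Algebra ℚ K] (f : Coch W) : Prop :=
  ∀ j : Qb →ₐ[ℚ] AlgebraicClosure K, ∃ P : Pt E (AlgebraicClosure K), ∀ (τ : Gal K) (h : Gal ℚ),
    Fx e h → (τ.toAlgHom.restrictScalars ℚ).comp j = j.comp h.toAlgHom →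
      act E j (tr hW e f h) = aL E K τ P - P

include hgen in
lemma Th_loc {T : Finset (Fin n)} {K : Type} [Field K] {iK : Algebra ℚ K} {f : Coch W}
    (hf : IsCoc W f) (hl : Emb hW e K f) :
    LocTriv (tw (∏ i ∈ T, d i) E) K (Th hW E1 E3 e hr hd T f) := by
  intro ι
  obtain ⟨R, hR⟩ := cor_loc (locD E K) (sec_spec (HH e hr hd))
    (chT_H (rh_sq e hr) (rh_ne e hr hd) T) (tr_coc' hW e hr hd hgen hf) (by
      intro j
      obtain ⟨P, hP⟩ := hl j
      exact ⟨P, fun τ h hh => hP τ h ((mem_HH e hr hd hgen h).1 hh)⟩) ι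
  have hι : (ι (∏ i ∈ T, rh e r i)) ^ 2 = algebraMap ℚ (AlgebraicClosure K) (∏ i ∈ T, d i) := by
    rw [← map_pow, prod_sq (rh_sq e hr) T]
    exact AlgHom.commutes ι _
  have hι0 : ι (∏ i ∈ T, rh e r i) ≠ 0 :=
    (map_ne_zero ι).2 (Finset.prod_ne_zero_iff.2 fun i _ => rh_ne e hr hd i)
  refine ⟨tm (sc_tw E1 E3 (RingHom.id _) hι hι0) R, fun τ σ hτ => ?_⟩
  have h1 := hR τ σ (AlgHom.ext hτ)
  have S3 := sc_tw E1 E3 (ι : Qb →+* AlgebraicClosure K) hι hι0
  have h2 : ∀ P : Pt E Qb, act (tw (∏ i ∈ T, d i) E) ι (tm (sc_tw E1 E3 (RingHom.id Qb)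
      (prod_sq (rh_sq e hr) T) (Finset.prod_ne_zero_iff.2 fun i _ => rh_ne e hr hd i)) P) =
      tm (sc_tw E1 E3 (RingHom.id _) hι hι0) (act E ι P) := by
    intro P
    rw [tm_act _ ι S3 (fun x => rfl) rfl]
    exact (act_tm ι _ S3 (fun x => rfl) P).symm
  unfold Th
  rw [h2]
  change tm _ ((locD E K).st ι _) = _
  refine (congrArg _ h1).trans ?_
  rw [map_sub]
  congr 1
  refine tw_act _ (τ.toAlgHom.restrictScalars ℚ) _ (chT_pm _ _ T σ) ?_ _
  change τ (ι _) = _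
  rw [hτ, chT_spec (rh_sq e hr) (rh_ne e hr hd) T σ, map_mul, map_intCast]

end theta

end Pool.Agent.TH841.NF
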