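import Mathlib
import Pool.Agent.TH841.NF.Th2
import Pool.Agent.TH841.NF.Plc

/-!
# Local triviality at the places of `F` and the embeddings
-/

set_option autoImplicit false

attribute [-instance] DivisionRing.toRatAlgebra

namespace Pool.Agent.TH841.NF

open WeierstrassCurve

open Pool.Agent.TH841.SH.D (Pt act Gal Coch IsCoc IsCob LocTriv cob)

lemma aut_of_two {k C : Type} [Field k] [Field C] (β₁ β₂ : AlgebraicClosure k →+* C)
    (h : ∀ x : k, β₁ (algebraMap k _ x) = β₂ (algebraMap k _ x)) :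
    ∃ τ : Gal k, ∀ x, β₂ x = β₁ (τ x) := by
  let i1 : Algebra (AlgebraicClosure k) C := β₁.toAlgebra
  let i2 : Algebra k C := (β₁.comp (algebraMap k (AlgebraicClosure k))).toAlgebra
  have i3 : IsScalarTower k (AlgebraicClosure k) C := IsScalarTower.of_algebraMap_eq fun _ => rfl
  let β : AlgebraicClosure k →ₐ[k] C :=
    { β₂ with commutes' := fun x => (h x).symm }
  refine ⟨Normal.algHomEquivAut k C (AlgebraicClosure k) β, fun x => ?_⟩
  have h1 := (Normal.algHomEquivAut k C (AlgebraicClosure k)).symm_apply_apply β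
  have h2 := DFunLike.congr_fun h1 x
  exact h2.symm

variable {F : Type} [Field F] [Algebra ℚ F] {E : WeierstrassCurve ℚ} {W : WeierstrassCurve F}
  (hW : Sc (algebraMap ℚ F) 1 E W) (e : AlgebraicClosure F ≃+* Qb)

lemma bridge {K : Type} [Field K] [Algebra ℚ K] {Fv : Type} [Field Fv] [Algebra F Fv]
    {f : Coch W} (hf : LocTriv W Fv f) (j : Qb →ₐ[ℚ] AlgebraicClosure K)
    (β : Fv →+* AlgebraicClosure K)
    (hβ : ∀ x : F, β (algebraMap F Fv x) = j (e (algebraMap F _ x)))
    (hfix : ∀ τ : Gal K, (∀ x : F, τ (j (e (algebraMap F _ x))) = j (e (algebraMap F _ x))) →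
      ∀ y, τ (β y) = β y) :
    ∃ P : Pt E (AlgebraicClosure K), ∀ (τ : Gal K) (h : Gal ℚ),
      Fx e h → (τ.toAlgHom.restrictScalars ℚ).comp j = j.comp h.toAlgHom →
        act E j (tr hW e f h) = aL E K τ P - P := by
  let i1 : Algebra Fv (AlgebraicClosure K) := β.toAlgebra
  let β' : AlgebraicClosure Fv →ₐ[Fv] AlgebraicClosure K := IsAlgClosed.lift
  have hβ' : ∀ y : Fv, β' (algebraMap Fv _ y) = β y := fun y => β'.commutes y
  let ι₀ : AlgebraicClosure F →ₐ[F] AlgebraicClosure Fv := IsAlgClosed.lift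
  obtain ⟨σ₀, hσ₀⟩ := aut_of_two
    ((β' : AlgebraicClosure Fv →+* AlgebraicClosure K).comp
      (ι₀ : AlgebraicClosure F →+* AlgebraicClosure Fv))
    ((j : Qb →+* AlgebraicClosure K).comp (e : AlgebraicClosure F →+* Qb)) (by
      intro x
      change β' (ι₀ (algebraMap F _ x)) = j (e (algebraMap F _ x))
      rw [ι₀.commutes, ← hβ, ← hβ']
      rfl)
  have hσ1 : ∀ x, j (e x) = β' (ι₀ (σ₀ x)) := hσ₀
  let ι : AlgebraicClosure F →ₐ[F] AlgebraicClosure Fv := ι₀.comp σ₀.toAlgHom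
  have hι : ∀ x, j (e x) = β' (ι x) := hσ1
  obtain ⟨P', hP'⟩ := hf ι
  have S1 : Sc (β' : AlgebraicClosure Fv →+* AlgebraicClosure K) 1
    (W.baseChange (AlgebraicClosure Fv)) (E.baseChange (AlgebraicClosure K)) := sc_any hW _
  refine ⟨tm S1 P', fun τ h hh hτ => ?_⟩
  have hτ1 : ∀ x, τ (j x) = j (h x) := fun x => DFunLike.congr_fun hτ x
  have hfx : ∀ y, τ (β y) = β y := by
    apply hfix
    intro x
    rw [hτ1, hh x]
  obtain ⟨τ', hτ'⟩ := aut_of_two (β' : AlgebraicClosure Fv →+* AlgebraicClosure K)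
    (((τ : AlgebraicClosure K ≃+* AlgebraicClosure K) : AlgebraicClosure K →+*
      AlgebraicClosure K).comp (β' : AlgebraicClosure Fv →+* AlgebraicClosure K)) (by
      intro y
      change β' (algebraMap Fv _ y) = τ (β' (algebraMap Fv _ y))
      rw [hβ', hfx])
  have hτ2 : ∀ x, τ (β' x) = β' (τ' x) := hτ'
  have hcomp : ∀ x, τ' (ι x) = ι (cF e h x) := by
    intro x
    apply (β' : AlgebraicClosure Fv →+* AlgebraicClosure K).injective
    change β' (τ' (ι x)) = β' (ι (cF e h x))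
    rw [← hτ2, ← hι, ← hι, hτ1, e_cF e hh]
  have h1 := hP' τ' (cF e h) hcomp
  have S2 : Sc ((j : Qb →+* AlgebraicClosure K).comp (e : AlgebraicClosure F →+* Qb)) 1
    (W.baseChange (AlgebraicClosure F)) (E.baseChange (AlgebraicClosure K)) := sc_any hW _
  have h2 : act E j (tr hW e f h) = tm S2 (f (cF e h)) :=
    tm_act _ j S2 (fun x => rfl) (map_one j).symm _
  have h3 : tm S2 (f (cF e h)) = tm S1 (act W ι (f (cF e h))) :=
    (act_tm ι S1 S2 (fun x => (hι x).symm) _).symm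
  rw [h2, h3, h1, map_sub]
  congr 1
  have S3 : Sc (((τ : AlgebraicClosure K ≃+* AlgebraicClosure K) : AlgebraicClosure K →+*
      AlgebraicClosure K).comp (β' : AlgebraicClosure Fv →+* AlgebraicClosure K)) 1
      (W.baseChange (AlgebraicClosure Fv)) (E.baseChange (AlgebraicClosure K)) := sc_any hW _
  have h4 : tm S1 (act W (τ'.toAlgHom.restrictScalars F) P') = tm S3 P' :=
    act_tm _ S1 S3 (fun x => (hτ2 x).symm) _
  have h5 : aL E K τ (tm S1 P') = tm S3 P' :=
    tm_act _ (τ.toAlgHom.restrictScalars ℚ) S3 (fun x => rfl) (map_one _).symm _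
  rw [h4, h5]

end Pool.Agent.TH841.NF
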