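import Mathlib
import Pool.Agent.TH841.NF.Brd
import Pool.Agent.TH841.NF.ShaN

/-!
# The kernel of the corestriction maps
-/

set_option autoImplicit false

attribute [-instance] DivisionRing.toRatAlgebra

namespace Pool.Agent.TH841.NF

open WeierstrassCurve

open Pool.Agent.TH841.SH.D (Pt act Gal Coch IsCoc IsCob LocTriv cob)

section ker

variable {F : Type} [Field F] [Algebra ℚ F] {E : WeierstrassCurve ℚ} {W : WeierstrassCurve F}
  (hW : Sc (algebraMap ℚ F) 1 E W) (E1 : E.a₁ = 0) (E3 : E.a₃ = 0)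
  (e : AlgebraicClosure F ≃+* Qb)
  {n : ℕ} {r : Fin n → F} {d : Fin n → ℚ} (hr : ∀ i, r i ^ 2 = algebraMap ℚ F (d i))
  (hd : ∀ i, d i ≠ 0) (hgen : IntermediateField.adjoin ℚ (Set.range r) = ⊤)

include E1 E3 in
lemma tw_surj {L : Type} [Field L] [Algebra ℚ L] {d : ℚ} {u : L} (hu : u ^ 2 = algebraMap ℚ L d)
    (h0 : u ≠ 0) (S : Sc (RingHom.id L) u (E.baseChange L) ((tw d E).baseChange L))
    (P : Pt (tw d E) L) : ∃ Q : Pt E L, tm S Q = P := by
  have S' := sc_tw' E1 E3 (RingHom.id L) hu h0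
  have S'' : Sc (RingHom.id L) 1 ((tw d E).baseChange L) ((tw d E).baseChange L) := by
    refine ⟨one_ne_zero, ?_, ?_, ?_, ?_, ?_⟩ <;> simp
  refine ⟨tm S' P, ?_⟩
  rw [tm_tm S' S S'' (fun x => rfl), tm_id S'' (fun x => rfl) rfl]
  change 1 = u⁻¹ * u
  rw [inv_mul_cancel₀ h0]

lemma any_surj (Q : Pt E Qb) : ∃ P : Pt W (AlgebraicClosure F),
    tm (sc_any hW (e : AlgebraicClosure F →+* Qb)) P = Q := by
  have S' := sc_any' hW (e.symm : Qb →+* AlgebraicClosure F)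
  have S'' : Sc (RingHom.id Qb) 1 (E.baseChange Qb) (E.baseChange Qb) := by
    refine ⟨one_ne_zero, ?_, ?_, ?_, ?_, ?_⟩ <;> simp
  refine ⟨tm S' Q, ?_⟩
  rw [tm_tm S' _ S'' (fun x => e.apply_symm_apply x), tm_id S'' (fun x => rfl) rfl]
  rw [map_one, mul_one]

lemma tr_cQ (f : Coch W) (σ : Gal F) :
    tr hW e f (cQ e σ) = tm (sc_any hW (e : AlgebraicClosure F →+* Qb)) (f σ) := by
  unfold tr
  rw [cF_cQ]

include hgen in
lemma ker_Th {f : Coch W}
    (h : ∀ T : Finset (Fin n), IsCob (tw (∏ i ∈ T, d i) E) (Th hW E1 E3 e hr hd T f)) :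
    IsCob W ((2 ^ n : ℕ) • f) := by
  choose P hP using h
  choose Q hQ using fun T : Finset (Fin n) => tw_surj E1 E3 (prod_sq (rh_sq e hr) T)
    (Finset.prod_ne_zero_iff.2 fun i _ => rh_ne e hr hd i)
    (sc_tw E1 E3 (RingHom.id Qb) (prod_sq (rh_sq e hr) T)
    (Finset.prod_ne_zero_iff.2 fun i _ => rh_ne e hr hd i)) (P T)
  have h1 : ∀ (T : Finset (Fin n)) (g : Gal ℚ), g ∈ HH e hr hd →
      cor (sec (HH e hr hd)) (aG E) (chT (rh_sq e hr) (rh_ne e hr hd) T) (tr hW e f) g =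
        aG E g (Q T) - Q T := by
    intro T g hg
    apply tm_inj (sc_tw E1 E3 (RingHom.id Qb) (prod_sq (rh_sq e hr) T)
      (Finset.prod_ne_zero_iff.2 fun i _ => rh_ne e hr hd i))
    refine (hP T g).trans ?_
    rw [map_sub, hQ]
    congr 1
    have h2 := tw_act (sc_tw E1 E3 (RingHom.id Qb) (prod_sq (rh_sq e hr) T)
      (Finset.prod_ne_zero_iff.2 fun i _ => rh_ne e hr hd i)) g.toAlgHom _
      (chT_pm (rh_sq e hr) (rh_ne e hr hd) T g) (chT_spec (rh_sq e hr) (rh_ne e hr hd) T g) (Q T)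
    rw [chT_H _ _ T g hg, one_smul, hQ] at h2
    exact h2.symm
  obtain ⟨R, hR⟩ := any_surj hW e (∑ T, Q T)
  refine ⟨R, fun σ => ?_⟩
  apply tm_inj (sc_any hW (e : AlgebraicClosure F →+* Qb))
  have hσ : Fx e (cQ e σ) := cQ_fx e σ
  have hσ' : cQ e σ ∈ HH e hr hd := (mem_HH e hr hd hgen _).2 hσ
  have h3 := sum_cor (sec_spec (HH e hr hd)) (sec_one _) (aG E)
    (fun T => chT (rh_sq e hr) (rh_ne e hr hd) T) (2 ^ n) (sum_chT_H _ _) (sum_chT_not _ _)
    (tr hW e f) (cQ e σ) hσ'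
  rw [Finset.sum_congr rfl fun T _ => h1 T _ hσ', Finset.sum_sub_distrib, ← map_sum, ← hR,
    tr_cQ] at h3
  have h4 : aG E (cQ e σ) (tm (sc_any hW (e : AlgebraicClosure F →+* Qb)) R) =
      tm (sc_any hW (e : AlgebraicClosure F →+* Qb)) (act W σ.toAlgHom R) := by
    have := tr_act hW e hσ R
    rw [cF_cQ] at this
    exact this.symm
  rw [h4, ← map_sub] at h3
  rw [h3]
  change tm _ ((2 ^ n : ℕ) • (f σ)) = _
  rw [map_nsmul, ← natCast_zsmul]
  push_cast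
  rfl

end ker

end Pool.Agent.TH841.NF
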