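import Mathlib
import Pool.Agent.TH841.NF.Ker

/-!
# The homomorphisms between the Tate-Shafarevich groups
-/

set_option autoImplicit false

attribute [-instance] DivisionRing.toRatAlgebra

namespace Pool.Agent.TH841.NF

open WeierstrassCurve

open Pool.Agent.TH841.SH.D (Pt act Gal Coch IsCoc IsCob LocTriv cob)

section hom

variable {F : Type} [Field F] [NumberField F] [Algebra ℚ F] {E : WeierstrassCurve ℚ}
  {W : WeierstrassCurve F}
  (hW : Sc (algebraMap ℚ F) 1 E W) (E1 : E.a₁ = 0) (E3 : E.a₃ = 0)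
  (e : AlgebraicClosure F ≃+* Qb)
  {n : ℕ} {r : Fin n → F} {d : Fin n → ℚ} (hr : ∀ i, r i ^ 2 = algebraMap ℚ F (d i))
  (hd : ∀ i, d i ≠ 0) (hgen : IntermediateField.adjoin ℚ (Set.range r) = ⊤)

lemma emb_p {f : Coch W} (hf : D.IsShaCoc W f) (p : ℕ) [Fact p.Prime] {i : Algebra ℚ ℚ_[p]} :
    Emb hW e ℚ_[p] f := by
  intro j
  obtain ⟨v, β, hβ, hfix⟩ := place_p ((j : Qb →+* PadicAlgCl p).comp
    ((e : AlgebraicClosure F →+* Qb).comp (algebraMap F (AlgebraicClosure F))))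
  exact bridge hW e (hf.2.1 v) j β hβ hfix

lemma emb_r {f : Coch W} (hf : D.IsShaCoc W f) {i : Algebra ℚ ℝ} : Emb hW e ℝ f := by
  intro j
  obtain ⟨v, β, hβ, hfix⟩ := place_r ((j : Qb →+* AlgebraicClosure ℝ).comp
    ((e : AlgebraicClosure F →+* Qb).comp (algebraMap F (AlgebraicClosure F))))
  exact bridge hW e (hf.2.2 v) j β hβ hfix

include hgen in
lemma Th_sha {f : Coch W} (hf : D.IsShaCoc W f) (T : Finset (Fin n)) :
    Pool.Agent.TH841.SH.D.IsShaCoc (tw (∏ i ∈ T, d i) E) (Th hW E1 E3 e hr hd T f) :=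
  ⟨Th_coc hW E1 E3 e hr hd hgen hf.1,
    fun p _ => Th_loc hW E1 E3 e hr hd hgen hf.1 (emb_p hW e hf p),
    Th_loc hW E1 E3 e hr hd hgen hf.1 (emb_r hW e hf)⟩

/-- the homomorphism on the cocycles -/
noncomputable def thC (T : Finset (Fin n)) :
    D.shaCoc W →+ Pool.Agent.TH841.SH.D.shaCoc (tw (∏ i ∈ T, d i) E) where
  toFun f := ⟨Th hW E1 E3 e hr hd T f.1, Th_sha hW E1 E3 e hr hd hgen f.2 T⟩
  map_zero' := by
    apply Subtype.ext
    have h := Th_add hW E1 E3 e hr hd T 0 0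
    rw [add_zero] at h
    exact left_eq_add.1 h
  map_add' f g := Subtype.ext (Th_add hW E1 E3 e hr hd T f.1 g.1)

/-- the homomorphism -/
noncomputable def thS (T : Finset (Fin n)) :
    D.Sha W →+ Pool.Agent.TH841.SH.D.Sha (tw (∏ i ∈ T, d i) E) :=
  QuotientAddGroup.map ((cob W).addSubgroupOf (D.shaCoc W))
    ((cob (tw (∏ i ∈ T, d i) E)).addSubgroupOf
      (Pool.Agent.TH841.SH.D.shaCoc (tw (∏ i ∈ T, d i) E)))
    (thC hW E1 E3 e hr hd hgen T) (fun _ hf => Th_cob hW E1 E3 e hr hd hgen hf)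

lemma thS_ker (x : D.Sha W) (h : ∀ T, thS hW E1 E3 e hr hd hgen T x = 0) :
    (2 ^ n : ℕ) • x = 0 := by
  induction x using QuotientAddGroup.induction_on with
  | H f =>
    have h1 : ∀ T : Finset (Fin n), IsCob (tw (∏ i ∈ T, d i) E)
        (Th hW E1 E3 e hr hd T f.1) := by
      intro T
      exact (QuotientAddGroup.eq_zero_iff (thC hW E1 E3 e hr hd hgen T f)).1 (h T)
    have h2 := ker_Th hW E1 E3 e hr hd hgen h1
    have h3 : ((((2 ^ n : ℕ) • f : D.shaCoc W)) :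
        D.shaCoc W ⧸ (cob W).addSubgroupOf (D.shaCoc W)) = 0 := by
      rw [QuotientAddGroup.eq_zero_iff]
      exact h2
    exact h3

end hom

end Pool.Agent.TH841.NF
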