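import Mathlib
import Pool.Agent.TH639.SL.Twist
import Pool.Agent.TH841.SH.Wt

/-!
# Moments of the 2-Selmer groups of the twists by products of linear forms
-/

set_option autoImplicit false

namespace Pool.Agent.TH841.NF

open Finset Pool.Agent.W262.RK Pool.Agent.W307.RS Pool.Agent.W307.SE Pool.Agent.W307.RT

open Pool.Agent.TH639.SL (avgks roots_tw disc_ne disc_tw)

/-- moments for the products of the linear forms in `J` -/
theorem sn_moments (J : Type) [Fintype J] [DecidableEq J] (a : Fin 3 → ℤ) (γ δ : J → ℤ)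
    (k L : ℕ) (ha : ∀ i, a i ≠ 0) (ha2 : a 0 - a 1 = a 2) (hγ : ∀ i, γ i ≠ 0)
    (hγδ : ∀ i j, i ≠ j → γ i * δ j ≠ γ j * δ i) (hk : 1 ≤ k) :
    ∃ C : ℝ, ∀ (N : ℤ) (M : ℕ), 1 ≤ M → |N| ≤ (M : ℤ) ^ L →
      ∑ t ∈ (Ioc N (N + M)).filter (fun t => ∀ i, γ i * t + δ i ≠ 0),
        SN (a 0 * ∏ i, (γ i * t + δ i)) (a 1 * ∏ i, (γ i * t + δ i)) ^ k ≤ C * M := by
  obtain ⟨C, hC⟩ := avgks J a γ δ k L ha ha2 hγ (fun i j hij => by
    unfold Res
    exact sub_ne_zero.2 (hγδ i j hij)) hk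
  refine ⟨C, fun N M hM hN => ?_⟩
  have hN' : N.natAbs ≤ M ^ L := by
    have : ((N.natAbs : ℕ) : ℤ) ≤ ((M ^ L : ℕ) : ℤ) := by
      rw [Int.natCast_natAbs]
      push_cast
      exact hN
    exact_mod_cast this
  set g : ℤ → ℝ := fun t => (SN (a 0 * ∏ j, ff γ δ t j) (a 1 * ∏ j, ff γ δ t j)) ^ k with hg
  have hinj : Set.InjOn (fun t : ℕ => N + (t : ℤ)) ((Icc 1 M).filter
      (fun t : ℕ => ∀ j, ff γ δ (N + (t : ℤ)) j ≠ 0) : Set ℕ) := by
    intro a _ b _ hab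
    have : N + (a : ℤ) = N + (b : ℤ) := hab
    omega
  have hsum : ∑ t ∈ (Icc 1 M).filter (fun t : ℕ => ∀ j, ff γ δ (N + (t : ℤ)) j ≠ 0),
      g (N + (t : ℤ)) = ∑ t ∈ ((Icc 1 M).filter
        (fun t : ℕ => ∀ j, ff γ δ (N + (t : ℤ)) j ≠ 0)).image (fun t : ℕ => N + (t : ℤ)), g t :=
    (sum_image hinj).symm
  have hE : ∑ t ∈ (Icc 1 M).filter (fun t : ℕ => ∀ j, ff γ δ (N + (t : ℤ)) j ≠ 0),
      g (N + (t : ℤ)) ≤ C * M := by
    convert hC N M hM hN'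
  have hg0 : ∀ t, 0 ≤ g t := fun t => pow_nonneg (SN_nonneg _ _) _
  refine le_trans ?_ hE
  rw [hsum]
  refine sum_le_sum_of_subset_of_nonneg ?_ (fun t _ _ => hg0 t)
  intro t ht
  rw [mem_filter, mem_Ioc] at ht
  obtain ⟨⟨ht1, ht2⟩, ht3⟩ := ht
  rw [mem_image]
  refine ⟨(t - N).toNat, ?_, ?_⟩
  · rw [mem_filter, mem_Icc]
    have h5 : N + (((t - N).toNat : ℕ) : ℤ) = t := by omega
    refine ⟨by omega, fun j => ?_⟩
    rw [h5]
    exact ht3 j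
  · show N + (((t - N).toNat : ℕ) : ℤ) = t
    omega

/-- the 2-Selmer group of the twist by `D = c * P * w ^ 2` -/
lemma sel_tw2 {A B e1 e2 e3 : ℤ} (hD : 4 * A ^ 3 + 27 * B ^ 2 ≠ 0)
    (h : ∀ x : ℤ, x ^ 3 + A * x + B = (x - e1) * (x - e2) * (x - e3)) {d c P w : ℤ}
    (hd : d ≠ 0) (hdc : d = c * P * w ^ 2) :
    (SelR (d ^ 2 * A) (d ^ 3 * B)).Finite ∧
      ((SelR (d ^ 2 * A) (d ^ 3 * B)).ncard : ℝ) ≤
        SN (((e2 - e1) * c) * P) (((e3 - e1) * c) * P) := by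
  obtain ⟨h12, h13, h23⟩ := disc_ne hD h
  have hcP : c * P ≠ 0 := by
    intro h0
    apply hd
    rw [hdc, h0, zero_mul]
  have hw : w ≠ 0 := by
    rintro rfl
    apply hd
    rw [hdc]
    ring
  have hf : (Sel (((e2 - e1) * c) * P) (((e3 - e1) * c) * P)).Finite :=
    sel_fin Pool.Agent.W410.FK.seld (by rw [mul_assoc]; exact mul_ne_zero h12 hcP)
      (by rw [mul_assoc]; exact mul_ne_zero h13 hcP)
      (fun h' => h23 (by
        rw [mul_assoc, mul_assoc] at h'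
        have := mul_right_cancel₀ hcP h'
        linarith))
  obtain ⟨h1, h2⟩ := Pool.Agent.W410.FK.selc (d ^ 2 * A) (d ^ 3 * B) (d * e1) (d * e2) (d * e3)
    (((e2 - e1) * c) * P) (((e3 - e1) * c) * P) w (disc_tw hd hD) (roots_tw h d)
    (by exact_mod_cast hw)
    (by rw [hdc]; push_cast; ring) (by rw [hdc]; push_cast; ring) hf
  exact ⟨h1, by unfold SN; exact_mod_cast h2⟩

section fam

variable {m : ℕ} {I : Type} (γ δ : Fin m → ℤ) (c : I → ℤ) (S : I → Finset (Fin m))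

/-- the integers whose square roots generate the field -/
def Dt (t : ℤ) (i : I) : ℤ := c i * ∏ l ∈ S i, (γ l * t + δ l)

/-- the number of the `i ∈ T` with `l ∈ S i` -/
def mT (T : Finset I) (l : Fin m) : ℕ := (T.filter fun i => l ∈ S i).card

lemma prod_Dt (T : Finset I) (t : ℤ) : ∏ i ∈ T, Dt γ δ c S t i =
    (∏ i ∈ T, c i) * (∏ l : {l : Fin m // mT S T l % 2 = 1}, (γ l.1 * t + δ l.1)) *
      (∏ l : Fin m, (γ l * t + δ l) ^ (mT S T l / 2)) ^ 2 := by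
  classical
  have h1 : ∏ i ∈ T, Dt γ δ c S t i =
      (∏ i ∈ T, c i) * ∏ l : Fin m, (γ l * t + δ l) ^ mT S T l := by
    unfold Dt
    rw [prod_mul_distrib]
    congr 1
    have h2 : ∀ i ∈ T, ∏ l ∈ S i, (γ l * t + δ l) =
        ∏ l : Fin m, if l ∈ S i then (γ l * t + δ l) else 1 := by
      intro i _
      rw [prod_ite_mem, univ_inter]
    rw [prod_congr rfl h2, prod_comm]
    refine prod_congr rfl fun l _ => ?_
    rw [← prod_filter, prod_const]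
    rfl
  have h3 : ∏ l : {l : Fin m // mT S T l % 2 = 1}, (γ l.1 * t + δ l.1) =
      ∏ l : Fin m, (γ l * t + δ l) ^ (mT S T l % 2) := by
    have e : ∀ l : Fin m, (γ l * t + δ l) ^ (mT S T l % 2) =
        if mT S T l % 2 = 1 then (γ l * t + δ l) else 1 := by
      intro l
      rcases Nat.mod_two_eq_zero_or_one (mT S T l) with h | h
      · rw [h, if_neg (by norm_num), pow_zero]
      · rw [h, if_pos rfl, pow_one]
    rw [prod_congr rfl fun l _ => e l, ← prod_filter]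
    exact (prod_subtype _ (by simp) (fun l : Fin m => γ l * t + δ l)).symm
  rw [h1, h3, mul_assoc, ← prod_pow, ← prod_mul_distrib]
  congr 1
  refine prod_congr rfl fun l _ => ?_
  rw [← pow_mul, ← pow_add]
  congr 1
  omega

lemma prod_Dt_ne {t : ℤ} (hc : ∀ i, c i ≠ 0) (ht : ∀ l, γ l * t + δ l ≠ 0)
    (T : Finset I) : ∏ i ∈ T, Dt γ δ c S t i ≠ 0 := by
  refine prod_ne_zero_iff.2 fun i _ => ?_
  unfold Dt
  exact mul_ne_zero (hc i) (prod_ne_zero_iff.2 fun l _ => ht l)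

/-- all the moments for one twist -/
theorem mom_T {A B e1 e2 e3 : ℤ} (hD : 4 * A ^ 3 + 27 * B ^ 2 ≠ 0)
    (h : ∀ x : ℤ, x ^ 3 + A * x + B = (x - e1) * (x - e2) * (x - e3))
    (hγ : ∀ i, γ i ≠ 0) (hγδ : ∀ i j, i ≠ j → γ i * δ j ≠ γ j * δ i) (hc : ∀ i, c i ≠ 0)
    (T : Finset I) (k L : ℕ) (hk : 1 ≤ k) :
    ∃ C : ℝ, ∀ (N : ℤ) (M : ℕ), 1 ≤ M → |N| ≤ (M : ℤ) ^ L →
      ∑ t ∈ (Ioc N (N + M)).filter (fun t => ∀ i, γ i * t + δ i ≠ 0),
        ((SelR ((∏ i ∈ T, Dt γ δ c S t i) ^ 2 * A)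
          ((∏ i ∈ T, Dt γ δ c S t i) ^ 3 * B)).ncard : ℝ) ^ k ≤ C * M := by
  obtain ⟨h12, h13, h23⟩ := disc_ne hD h
  have hcT : ∏ i ∈ T, c i ≠ 0 := prod_ne_zero_iff.2 fun i _ => hc i
  obtain ⟨C, hC⟩ := sn_moments {l : Fin m // mT S T l % 2 = 1}
    ![(e2 - e1) * ∏ i ∈ T, c i, (e3 - e1) * ∏ i ∈ T, c i, (e2 - e3) * ∏ i ∈ T, c i]
    (fun l => γ l.1) (fun l => δ l.1) k L
    (by
      intro i
      fin_cases i
      · exact mul_ne_zero h12 hcT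
      · exact mul_ne_zero h13 hcT
      · exact mul_ne_zero h23 hcT)
    (by
      change (e2 - e1) * ∏ i ∈ T, c i - (e3 - e1) * ∏ i ∈ T, c i = (e2 - e3) * ∏ i ∈ T, c i
      ring) (fun l => hγ l.1) (fun i j hij => hγδ i.1 j.1 (fun h' => hij (Subtype.ext h'))) hk
  refine ⟨C, fun N M hM hN => ?_⟩
  refine le_trans ?_ (hC N M hM hN)
  refine (sum_le_sum fun t ht => ?_).trans (sum_le_sum_of_subset_of_nonneg (f := fun t =>
    SN ((e2 - e1) * (∏ i ∈ T, c i) * ∏ l : {l : Fin m // mT S T l % 2 = 1},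
      (γ l.1 * t + δ l.1)) ((e3 - e1) * (∏ i ∈ T, c i) *
        ∏ l : {l : Fin m // mT S T l % 2 = 1}, (γ l.1 * t + δ l.1)) ^ k) ?_ ?_)
  · have ht' := (mem_filter.1 ht).2
    exact pow_le_pow_left₀ (Nat.cast_nonneg _)
      (sel_tw2 hD h (prod_Dt_ne γ δ c S hc ht' T) (prod_Dt γ δ c S T t)).2 k
  · intro t ht
    rw [mem_filter] at ht ⊢
    exact ⟨ht.1, fun l => ht.2 l.1⟩
  · intro t _ _
    exact pow_nonneg (SN_nonneg _ _) _

end fam

end Pool.Agent.TH841.NF
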