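import Mathlib
import Pool.Agent.TH841.NF.Hom
import Pool.Agent.TH841.NF.Cnt
import Pool.Agent.TH841.NF.Mom
import Pool.Agent.W307.RG.MqTw

/-!
# The rank and the corank over one field
-/

set_option autoImplicit false

namespace Pool.Agent.TH841.NF

open WeierstrassCurve

open Pool.Agent.TH841.SH (Bd Pruf)

open Pool.Agent.TH841.SH.D (eSha)

open Pool.Agent.W307.RT (Sh)

/-- the curve `y² = x³ + A x + B` over `F` -/
def EF (A B : ℤ) (F : Type) [Field F] : WeierstrassCurve F := ⟨0, 0, 0, (A : F), (B : F)⟩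

/-- `F` is generated by square roots of the integers `d i` -/
def Gen (F : Type) [Field F] [NumberField F] {s : ℕ} (d : Fin s → ℤ) : Prop :=
  ∃ x : Fin s → F, (∀ i, x i ^ 2 = (d i : F)) ∧
    IntermediateField.adjoin ℚ (Set.range x) = ⊤

lemma sc_EF (A B : ℤ) (F : Type) [Field F] [Algebra ℚ F] :
    Sc (algebraMap ℚ F) 1 (Sh A B) (EF A B F) := by
  refine ⟨one_ne_zero, ?_, ?_, ?_, ?_, ?_⟩ <;> simp [EF, Sh]

lemma tw_Sh (A B : ℤ) {s : ℕ} (d : Fin s → ℤ) (T : Finset (Fin s)) :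
    tw (∏ i ∈ T, (d i : ℚ)) (Sh A B) = Sh ((∏ i ∈ T, d i) ^ 2 * A) ((∏ i ∈ T, d i) ^ 3 * B) := by
  apply WeierstrassCurve.ext
  · rfl
  · change (∏ i ∈ T, (d i : ℚ)) * 0 = 0
    rw [mul_zero]
  · rfl
  · change (∏ i ∈ T, (d i : ℚ)) ^ 2 * (A : ℚ) = (((∏ i ∈ T, d i) ^ 2 * A : ℤ) : ℚ)
    push_cast
    ring
  · change (∏ i ∈ T, (d i : ℚ)) ^ 3 * (B : ℚ) = (((∏ i ∈ T, d i) ^ 3 * B : ℤ) : ℚ)
    push_cast
    ring

open scoped Classical in
/-- the 2-torsion of the Tate-Shafarevich group -/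
noncomputable def tor2 (W : WeierstrassCurve ℚ) :
    {x : Pool.Agent.TH841.SH.D.Sha W // x + x = 0} ≃
      {x : Pool.Agent.W262.SH.Sha W // x + x = 0} :=
  (eSha W).toEquiv.subtypeEquiv (fun x => by
    change x + x = 0 ↔ (eSha W) x + (eSha W) x = 0
    rw [← map_add, EmbeddingLike.map_eq_zero_iff])

open scoped Classical in
/-- **one field** -/
theorem one_field {F : Type} [Field F] [NumberField F] {s : ℕ} {d : Fin s → ℤ}
    (hF : Gen F d) (hd : ∀ i, d i ≠ 0) {A B : ℤ} (hD : 4 * A ^ 3 + 27 * B ^ 2 ≠ 0)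
    (N : Finset (Fin s) → ℝ)
    (hN : ∀ T, Bd (Sh ((∏ i ∈ T, d i) ^ 2 * A) ((∏ i ∈ T, d i) ^ 3 * B)) (N T))
    (hfg : ∀ T, Module.Finite ℤ (Sh ((∏ i ∈ T, d i) ^ 2 * A)
      ((∏ i ∈ T, d i) ^ 3 * B)).toAffine.Point)
    {q : ℕ} (hq : D.HasDiv (EF A B F) q) :
    (2 : ℝ) ^ (D.rk (EF A B F) + q) ≤ ∏ T, N T := by
  obtain ⟨x, hx, hgen⟩ := hF
  have hdq : ∀ i, (d i : ℚ) ≠ 0 := fun i => by exact_mod_cast hd i
  have hxq : ∀ i, x i ^ 2 = algebraMap ℚ F (d i : ℚ) := fun i => by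
    rw [hx i, map_intCast]
  have he : Nonempty (AlgebraicClosure F ≃+* Qb) := by
    have h1 : Algebra.IsAlgebraic ℚ (AlgebraicClosure F) := Algebra.IsAlgebraic.trans ℚ F _
    have h2 : IsAlgClosure ℚ (AlgebraicClosure F) := ⟨inferInstance, h1⟩
    exact ⟨(IsAlgClosure.equiv ℚ (AlgebraicClosure F) (AlgebraicClosure ℚ)).toRingEquiv⟩
  obtain ⟨e⟩ := he
  obtain ⟨g, hg⟩ := hq
  have hfin : ∀ T : Finset (Fin s), Finite {y : Pool.Agent.TH841.SH.D.Sha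
      (tw (∏ i ∈ T, (d i : ℚ)) (Sh A B)) // y + y = 0} := by
    intro T
    rw [tw_Sh]
    have := (hN T).1
    exact Finite.of_equiv _ (tor2 _).symm
  have h1 := div_bound (fun T => thS (sc_EF A B F) rfl rfl e hxq hdq hgen T) s
    (thS_ker (sc_EF A B F) rfl rfl e hxq hdq hgen) hfin q g hg
  have h2 : ∀ T : Finset (Fin s), Nat.card {y : Pool.Agent.TH841.SH.D.Sha
      (tw (∏ i ∈ T, (d i : ℚ)) (Sh A B)) // y + y = 0} =
      Nat.card {y : Pool.Agent.W262.SH.Sha (Sh ((∏ i ∈ T, d i) ^ 2 * A)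
        ((∏ i ∈ T, d i) ^ 3 * B)) // y + y = 0} := by
    intro T
    rw [tw_Sh]
    exact Nat.card_congr (tor2 _)
  rw [Finset.prod_congr rfl fun T _ => h2 T] at h1
  have h3 := Pool.Agent.W307.RS.mq2 F s x d hx hd hgen A B hD
  have h4 : ∀ T : Finset (Fin s), Module.rank ℤ
      (Sh ((∏ i ∈ T, d i) ^ 2 * A) ((∏ i ∈ T, d i) ^ 3 * B)).toAffine.Point =
      ((Module.finrank ℤ (Sh ((∏ i ∈ T, d i) ^ 2 * A)
        ((∏ i ∈ T, d i) ^ 3 * B)).toAffine.Point : ℕ) : Cardinal) := by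
    intro T
    have := hfg T
    exact (Module.finrank_eq_rank ℤ _).symm
  have h5 : D.rk (EF A B F) ≤ ∑ T : Finset (Fin s), Module.finrank ℤ
      (Sh ((∏ i ∈ T, d i) ^ 2 * A) ((∏ i ∈ T, d i) ^ 3 * B)).toAffine.Point := by
    have h6 : ∑ T : Finset (Fin s), Module.rank ℤ (Sh ((∏ i ∈ T, d i) ^ 2 * A)
        ((∏ i ∈ T, d i) ^ 3 * B)).toAffine.Point =
        ((∑ T : Finset (Fin s), Module.finrank ℤ (Sh ((∏ i ∈ T, d i) ^ 2 * A)
        ((∏ i ∈ T, d i) ^ 3 * B)).toAffine.Point : ℕ) : Cardinal) := by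
      rw [Nat.cast_sum]
      exact Finset.sum_congr rfl fun T _ => h4 T
    have h7 := h3.trans (le_of_eq h6)
    exact Module.finrank_le_of_rank_le h7
  have h8 : (2 : ℝ) ^ D.rk (EF A B F) ≤ ∏ T : Finset (Fin s), (2 : ℝ) ^ Module.finrank ℤ
      (Sh ((∏ i ∈ T, d i) ^ 2 * A) ((∏ i ∈ T, d i) ^ 3 * B)).toAffine.Point := by
    rw [Finset.prod_pow_eq_pow_sum]
    exact pow_le_pow_right₀ (by norm_num) h5
  have h9 : (2 : ℝ) ^ q ≤ ∏ T : Finset (Fin s), (Nat.card {y : Pool.Agent.W262.SH.Sha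
      (Sh ((∏ i ∈ T, d i) ^ 2 * A) ((∏ i ∈ T, d i) ^ 3 * B)) // y + y = 0} : ℝ) := by
    exact_mod_cast h1
  rw [pow_add]
  calc (2 : ℝ) ^ D.rk (EF A B F) * 2 ^ q ≤ _ :=
        mul_le_mul h8 h9 (by positivity) (Finset.prod_nonneg fun T _ => by positivity)
    _ = ∏ T : Finset (Fin s), ((2 : ℝ) ^ Module.finrank ℤ
      (Sh ((∏ i ∈ T, d i) ^ 2 * A) ((∏ i ∈ T, d i) ^ 3 * B)).toAffine.Point *
      (Nat.card {y : Pool.Agent.W262.SH.Sha
      (Sh ((∏ i ∈ T, d i) ^ 2 * A) ((∏ i ∈ T, d i) ^ 3 * B)) // y + y = 0} : ℝ)) :=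
        Finset.prod_mul_distrib.symm
    _ ≤ _ := Finset.prod_le_prod (fun T _ => by positivity) fun T _ => (hN T).2

end Pool.Agent.TH841.NF
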