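import Mathlib
import Pool.Agent.TH841.NF.One

/-!
# Families of curves over number fields
-/

set_option autoImplicit false

namespace Pool.Agent.TH841.NF

open Finset

open Pool.Agent.TH841.SH (Bd bd_selR)

open Pool.Agent.W307.RT (Sh)

open Pool.Agent.W307.SE (SelR)

lemma hasDiv_zero {F : Type} [Field F] [NumberField F] (W : WeierstrassCurve F) :
    D.HasDiv W 0 := by
  refine ⟨0, ?_⟩
  intro x y _
  exact Subsingleton.elim x y

lemma bdd_of {F : Type} [Field F] [NumberField F] {W : WeierstrassCurve F} {X : ℝ}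
    (h : ∀ q, D.HasDiv W q → (2 : ℝ) ^ (D.rk W + q) ≤ X) : BddAbove {q | D.HasDiv W q} := by
  refine ⟨⌈X⌉₊, fun q hq => ?_⟩
  have h1 : (q : ℝ) ≤ X := by
    have h2 : (q : ℝ) ≤ 2 ^ q := by exact_mod_cast (Nat.lt_two_pow_self (n := q)).le
    have h3 : (2 : ℝ) ^ q ≤ 2 ^ (D.rk W + q) := pow_le_pow_right₀ (by norm_num) (by omega)
    exact h2.trans (h3.trans (h q hq))
  exact_mod_cast h1.trans (Nat.le_ceil X)

lemma crk_mem {F : Type} [Field F] [NumberField F] {W : WeierstrassCurve F}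
    (h : BddAbove {q | D.HasDiv W q}) : D.HasDiv W (D.crk W) :=
  Nat.sSup_mem ⟨0, hasDiv_zero W⟩ h

/-- the product is at most the sum of the powers -/
lemma prod_pow_le {ι : Type} [Fintype ι] [Nonempty ι] (x : ι → ℝ) (hx : ∀ i, 0 ≤ x i)
    (k : ℕ) : (∏ i, x i) ^ k ≤ ∑ i, x i ^ (Fintype.card ι * k) := by
  obtain ⟨i0, hi0⟩ := Finite.exists_max x
  have h1 : ∏ i, x i ≤ x i0 ^ Fintype.card ι := by
    refine (prod_le_prod (fun i _ => hx i) fun i _ => hi0 i).trans (le_of_eq ?_)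
    rw [prod_const, card_univ]
  calc (∏ i, x i) ^ k ≤ (x i0 ^ Fintype.card ι) ^ k :=
        pow_le_pow_left₀ (prod_nonneg fun i _ => hx i) h1 k
    _ = x i0 ^ (Fintype.card ι * k) := (pow_mul _ _ _).symm
    _ ≤ _ := single_le_sum (f := fun i => x i ^ (Fintype.card ι * k))
        (fun i _ => pow_nonneg (hx i) _) (mem_univ i0)

/-- from the bounds to the family -/
lemma famN {ι : Type} (P : Finset ι) (F : ι → Type) [∀ i, Field (F i)]
    [∀ i, NumberField (F i)] (W : ∀ i, WeierstrassCurve (F i)) (X : ι → ℝ) (k : ℕ) (M : ℝ)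
    (hX : ∀ i ∈ P, ∀ q, D.HasDiv (W i) q → (2 : ℝ) ^ (D.rk (W i) + q) ≤ X i)
    (hM : ∑ i ∈ P, X i ^ k ≤ M) :
    (∀ i ∈ P, BddAbove {q | D.HasDiv (W i) q}) ∧
    ∑ i ∈ P, ((2 : ℝ) ^ (D.rk (W i) + D.crk (W i))) ^ k ≤ M ∧
    ∀ n : ℕ, ((P.filter fun i => n ≤ D.rk (W i) + D.crk (W i)).card : ℝ) ≤ M / 2 ^ (k * n) := by
  have h1 : ∀ i ∈ P, BddAbove {q | D.HasDiv (W i) q} := fun i hi => bdd_of (hX i hi)
  have h2 : ∑ i ∈ P, ((2 : ℝ) ^ (D.rk (W i) + D.crk (W i))) ^ k ≤ M :=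
    (sum_le_sum fun i hi => pow_le_pow_left₀ (by positivity)
      (hX i hi _ (crk_mem (h1 i hi))) k).trans hM
  refine ⟨h1, h2, fun n => ?_⟩
  rw [le_div_iff₀ (by positivity)]
  refine le_trans ?_ h2
  refine le_trans ?_ (sum_le_sum_of_subset_of_nonneg
    (filter_subset (fun i => n ≤ D.rk (W i) + D.crk (W i)) P) (fun i _ _ => by positivity))
  rw [← nsmul_eq_mul]
  refine card_nsmul_le_sum _ _ _ fun i hi => ?_
  rw [mul_comm, pow_mul]
  exact pow_le_pow_left₀ (by positivity)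
    (pow_le_pow_right₀ (by norm_num) (mem_filter.1 hi).2) k

/-- from the bounds to the family, real exponents -/
lemma famR {ι : Type} (P : Finset ι) (F : ι → Type) [∀ i, Field (F i)]
    [∀ i, NumberField (F i)] (W : ∀ i, WeierstrassCurve (F i)) (X : ι → ℝ) (α : ℝ) (hα : 0 ≤ α)
    (M : ℝ) (hX : ∀ i ∈ P, ∀ q, D.HasDiv (W i) q → (2 : ℝ) ^ (D.rk (W i) + q) ≤ X i)
    (hM : ∑ i ∈ P, X i ^ α ≤ M) :
    (∀ i ∈ P, BddAbove {q | D.HasDiv (W i) q}) ∧
    ∑ i ∈ P, ((2 : ℝ) ^ (D.rk (W i) + D.crk (W i))) ^ α ≤ M ∧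
    ∀ n : ℕ, ((P.filter fun i => n ≤ D.rk (W i) + D.crk (W i)).card : ℝ) ≤
      M / ((2 : ℝ) ^ n) ^ α := by
  have h1 : ∀ i ∈ P, BddAbove {q | D.HasDiv (W i) q} := fun i hi => bdd_of (hX i hi)
  have h2 : ∑ i ∈ P, ((2 : ℝ) ^ (D.rk (W i) + D.crk (W i))) ^ α ≤ M :=
    (sum_le_sum fun i hi => Real.rpow_le_rpow (by positivity)
      (hX i hi _ (crk_mem (h1 i hi))) hα).trans hM
  refine ⟨h1, h2, fun n => ?_⟩
  rw [le_div_iff₀ (by positivity)]
  refine le_trans ?_ h2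
  refine le_trans ?_ (sum_le_sum_of_subset_of_nonneg
    (filter_subset (fun i => n ≤ D.rk (W i) + D.crk (W i)) P) (fun i _ _ => by positivity))
  rw [← nsmul_eq_mul]
  refine card_nsmul_le_sum _ _ _ fun i hi => ?_
  exact Real.rpow_le_rpow (by positivity)
    (pow_le_pow_right₀ (by norm_num) (mem_filter.1 hi).2) hα

/-- the inequality of the means -/
lemma prod_rpow_le {ι : Type} [Fintype ι] [Nonempty ι] (x : ι → ℝ) (hx : ∀ i, 0 ≤ x i) :
    (∏ i, x i) ^ ((2 : ℝ) / Fintype.card ι) ≤ ∑ i, ((1 : ℝ) / Fintype.card ι) * x i ^ 2 := by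
  have hn : (0 : ℝ) < Fintype.card ι := by exact_mod_cast Fintype.card_pos
  have h1 := Real.geom_mean_le_arith_mean_weighted univ (fun _ => (1 : ℝ) / Fintype.card ι)
    (fun i => x i ^ 2) (fun i _ => by positivity) (by
      rw [sum_const, card_univ, nsmul_eq_mul, mul_one_div_cancel hn.ne'])
    (fun i _ => by positivity)
  refine le_trans (le_of_eq ?_) h1
  rw [Real.finsetProd_rpow _ _ (fun i _ => by positivity), prod_pow, ← Real.rpow_natCast,
    ← Real.rpow_mul (prod_nonneg fun i _ => hx i)]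
  congr 1
  push_cast
  ring

end Pool.Agent.TH841.NF
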